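import Mathlib

/-!
# Fractional clique covers: duality
-/

set_option autoImplicit false

namespace Pool.Agent.K9h13.FC

open Finset

/-- weights with the sum `4 s` such that no member of the family has a weight above `s` -/
def Bad {N : ℕ} (τ : Finset (Finset (Fin N))) (s : ℕ) : Prop :=
  ∃ m : Fin N → ℕ, ∑ i, m i = 4 * s ∧ ∀ I ∈ τ, ∑ i ∈ I, m i ≤ s

/-- from real to integral weights -/
lemma bad_of_real {N : ℕ} (hN : 0 < N) (τ : Finset (Finset (Fin N))) (w : Fin N → ℝ) (hw : ∀ i, 0 ≤ w i)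
    (u : ℝ) (hS : 0 < ∑ i, w i) (hu : 4 * u < ∑ i, w i) (h : ∀ I ∈ τ, ∑ i ∈ I, w i ≤ u) :
    ∃ s : ℕ, 1 ≤ s ∧ Bad τ s := by
  classical
  obtain ⟨S, hSd⟩ : ∃ S, S = ∑ i, w i := ⟨_, rfl⟩
  rw [← hSd] at hS hu
  obtain ⟨s₀, hs₀⟩ := exists_nat_ge (N * S / (S - 4 * u))
  obtain ⟨s, hs⟩ : ∃ s, s = max s₀ 1 := ⟨_, rfl⟩
  have hs1 : 1 ≤ s := by rw [hs]; exact le_max_right _ _
  have hsN : N * S ≤ s * (S - 4 * u) := by
    have h1 : (s₀ : ℝ) ≤ s := by rw [hs]; exact_mod_cast le_max_left _ _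
    have h2 : N * S / (S - 4 * u) ≤ s := hs₀.trans h1
    rwa [div_le_iff₀ (by linarith)] at h2
  have hs0 : (0 : ℝ) < s := by exact_mod_cast hs1
  refine ⟨s, hs1, ?_⟩
  obtain ⟨m0, hm0⟩ : ∃ m0 : Fin N → ℕ, m0 = fun i => ⌊4 * s * (w i / S)⌋₊ := ⟨_, rfl⟩
  have hle : ∀ i, (m0 i : ℝ) ≤ 4 * s * (w i / S) := by
    intro i
    rw [hm0]
    exact Nat.floor_le (by have := hw i; positivity)
  have hge : ∀ i, 4 * s * (w i / S) - 1 ≤ (m0 i : ℝ) := by
    intro i
    rw [hm0]
    exact (Nat.sub_one_lt_floor _).le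
  have hsum : ∑ i, 4 * (s : ℝ) * (w i / S) = 4 * s := by
    rw [← mul_sum, ← sum_div, ← hSd, div_self hS.ne', mul_one]
  have h1 : ∑ i, (m0 i : ℝ) ≤ 4 * s := by
    rw [← hsum]
    exact sum_le_sum fun i _ => hle i
  have h2 : (4 * s : ℝ) - N ≤ ∑ i, (m0 i : ℝ) := by
    calc (4 * s : ℝ) - N = ∑ i : Fin N, (4 * (s : ℝ) * (w i / S) - 1) := by
          rw [sum_sub_distrib, hsum]
          simp
      _ ≤ _ := sum_le_sum fun i _ => hge i
  have h3 : ∑ i, m0 i ≤ 4 * s := by exact_mod_cast h1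
  obtain ⟨r, hr⟩ : ∃ r, r = 4 * s - ∑ i, m0 i := ⟨_, rfl⟩
  have hrN : (r : ℝ) ≤ N := by
    rw [hr, Nat.cast_sub h3]
    push_cast
    linarith
  refine ⟨fun i => m0 i + if i = ⟨0, hN⟩ then r else 0, ?_, ?_⟩
  · rw [sum_add_distrib, sum_ite_eq' univ]
    simp only [mem_univ, if_true]
    omega
  · intro I hI
    have h4 : ∑ i ∈ I, (m0 i + if i = ⟨0, hN⟩ then r else 0) ≤ ∑ i ∈ I, m0 i + r := by
      rw [sum_add_distrib, sum_ite_eq']
      split_ifs <;> omega
    have h5 : (∑ i ∈ I, (m0 i : ℝ)) ≤ 4 * s * (u / S) := by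
      calc _ ≤ ∑ i ∈ I, 4 * (s : ℝ) * (w i / S) := sum_le_sum fun i _ => hle i
        _ = 4 * s * ((∑ i ∈ I, w i) / S) := by rw [← mul_sum, ← sum_div]
        _ ≤ _ := by
            apply mul_le_mul_of_nonneg_left _ (by positivity)
            exact div_le_div_of_nonneg_right (h I hI) hS.le
    have h6 : 4 * s * (u / S) + N ≤ s := by
      have h7 : (N : ℝ) ≤ s * (S - 4 * u) / S := by
        rw [le_div_iff₀ hS]
        exact hsN
      have h8 : (s : ℝ) * (S - 4 * u) / S = s - 4 * s * (u / S) := by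
        field_simp
      linarith
    have h9 : ((∑ i ∈ I, m0 i + r : ℕ) : ℝ) ≤ s := by
      push_cast
      linarith
    exact h4.trans (by exact_mod_cast h9)

/-- **Duality.** -/
theorem lp {N : ℕ} (hN : 0 < N) (τ : Finset (Finset (Fin N))) (h : ∀ s, 1 ≤ s → ¬ Bad τ s) :
    ∃ p : Finset (Fin N) → ℝ, (∀ I, 0 ≤ p I) ∧ ∑ I ∈ τ, p I = 1 ∧
      ∀ i, 1 / 4 ≤ ∑ I ∈ τ, p I * (if i ∈ I then 1 else 0) := by
  classical
  obtain ⟨L, hL⟩ : ∃ L : (τ → ℝ) →ₗ[ℝ] (Fin N → ℝ), ∀ p i, L p i = ∑ I : τ, p I * (if i ∈ I.1 then 1 else 0) := by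
    refine ⟨{ toFun := fun p i => ∑ I : τ, p I * (if i ∈ I.1 then 1 else 0), map_add' := ?_, map_smul' := ?_ },
      fun p i => rfl⟩
    · intro p q
      funext i
      simp only [Pi.add_apply, add_mul, sum_add_distrib]
    · intro c p
      funext i
      simp only [Pi.smul_apply, smul_eq_mul, RingHom.id_apply, mul_sum, mul_assoc]
  obtain ⟨C, hC⟩ : ∃ C : Set (Fin N → ℝ), C = L '' stdSimplex ℝ τ := ⟨_, rfl⟩
  obtain ⟨D, hD⟩ : ∃ D : Set (Fin N → ℝ), D = {x | ∀ i, 1 / 4 ≤ x i} := ⟨_, rfl⟩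
  have hCc : IsCompact C := by
    rw [hC]
    exact (isCompact_stdSimplex ℝ _).image L.continuous_of_finiteDimensional
  have hCv : Convex ℝ C := by
    rw [hC]
    exact (convex_stdSimplex ℝ _).linear_image L
  have hDv : Convex ℝ D := by
    rw [hD]
    intro x hx y hy a b ha hb hab i
    have h1 := hx i
    have h2 := hy i
    simp only [Pi.add_apply, Pi.smul_apply, smul_eq_mul]
    nlinarith
  have hDc : IsClosed D := by
    rw [hD]
    have : {x : Fin N → ℝ | ∀ i, 1 / 4 ≤ x i} = ⋂ i, {x | 1 / 4 ≤ x i} := by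
      ext x
      simp
    rw [this]
    exact isClosed_iInter fun i => isClosed_le continuous_const (continuous_apply i)
  by_cases hdis : Disjoint C D
  · exfalso
    obtain ⟨f, u, v, hfu, huv, hfv⟩ := geometric_hahn_banach_compact_closed hCv hCc hDv hDc hdis
    obtain ⟨w, hw⟩ : ∃ w : Fin N → ℝ, w = fun i => f (fun j => if i = j then 1 else 0) := ⟨_, rfl⟩
    have hf : ∀ x : Fin N → ℝ, f x = ∑ i, x i * w i := by
      intro x
      have := LinearMap.pi_apply_eq_sum_univ f.toLinearMap x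
      simp only [ContinuousLinearMap.coe_coe, smul_eq_mul] at this
      rw [this, hw]
    have hI : ∀ I ∈ τ, ∑ i ∈ I, w i ≤ u := by
      intro I hI
      have h1 : L (Pi.single ⟨I, hI⟩ 1) ∈ C := by
        rw [hC]
        exact ⟨_, single_mem_stdSimplex ℝ _, rfl⟩
      have h2 := hfu _ h1
      rw [hf] at h2
      have h3 : ∑ i, L (Pi.single ⟨I, hI⟩ 1) i * w i = ∑ i ∈ I, w i := by
        rw [← sum_filter_add_sum_filter_not univ (fun i => i ∈ I)]
        have h4 : ∀ i, L (Pi.single ⟨I, hI⟩ 1) i = if i ∈ I then 1 else 0 := by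
          intro i
          rw [hL, Finset.sum_eq_single (⟨I, hI⟩ : τ)]
          · rw [Pi.single_eq_same, one_mul]
          · intro J _ hJ
            rw [Pi.single_eq_of_ne hJ, zero_mul]
          · intro hh
            exact absurd (mem_univ _) hh
        simp only [h4]
        rw [sum_congr rfl (g := fun i => w i), sum_eq_zero (s := univ.filter (fun i => ¬ i ∈ I)), add_zero]
        · congr 1
          ext i
          simp
        · intro i hi
          rw [if_neg (mem_filter.1 hi).2, zero_mul]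
        · intro i hi
          rw [if_pos (mem_filter.1 hi).2, one_mul]
      rw [h3] at h2
      exact h2.le
    have hc : v < (∑ i, w i) / 4 := by
      have h1 : (fun _ : Fin N => (1 / 4 : ℝ)) ∈ D := by
        rw [hD]
        intro i
        exact le_rfl
      have h2 := hfv _ h1
      rw [hf, ← mul_sum] at h2
      linarith
    have hw0 : ∀ i, 0 ≤ w i := by
      intro i
      by_contra hneg
      push Not at hneg
      obtain ⟨t, ht⟩ : ∃ t, t = ((∑ j, w j) / 4 - v) / (-w i) := ⟨_, rfl⟩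
      have ht0 : 0 ≤ t := by
        rw [ht]
        apply div_nonneg <;> linarith
      have h1 : (fun j : Fin N => (1 / 4 : ℝ) + if i = j then t else 0) ∈ D := by
        rw [hD]
        intro j
        show (1 / 4 : ℝ) ≤ 1 / 4 + if i = j then t else 0
        split_ifs <;> linarith
      have h2 := hfv _ h1
      rw [hf] at h2
      simp only [add_mul, ite_mul, zero_mul, sum_add_distrib, sum_ite_eq, mem_univ, if_true, ← mul_sum] at h2
      have h3 : t * w i = -((∑ j, w j) / 4 - v) := by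
        have h4 : w i ≠ 0 := hneg.ne
        rw [ht, div_neg, neg_mul, div_mul_cancel₀ _ h4]
      rw [h3] at h2
      linarith
    have hS : 0 < ∑ i, w i := by
      rcases τ.eq_empty_or_nonempty with he | ⟨I, hIt⟩
      · -- the empty family is bad
        exfalso
        refine h 1 le_rfl ⟨fun i => if i = ⟨0, hN⟩ then 4 else 0, ?_, ?_⟩
        · rw [sum_ite_eq' univ]
          simp
        · intro I hI
          rw [he] at hI
          exact absurd hI (notMem_empty _)
      · have h1 := hI I hIt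
        have h2 : 0 ≤ ∑ i ∈ I, w i := sum_nonneg fun i _ => hw0 i
        linarith
    obtain ⟨s, hs, hb⟩ := bad_of_real hN τ w hw0 u hS (by linarith) hI
    exact h s hs hb
  · rw [Set.not_disjoint_iff] at hdis
    obtain ⟨x, hxC, hxD⟩ := hdis
    rw [hC] at hxC
    obtain ⟨p, ⟨hp0, hp1⟩, hpx⟩ := hxC
    refine ⟨fun I => if hI : I ∈ τ then p ⟨I, hI⟩ else 0, ?_, ?_, ?_⟩
    · intro I
      dsimp only
      split_ifs
      · exact hp0 _
      · exact le_rfl
    · rw [← sum_coe_sort τ]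
      rw [← hp1]
      apply sum_congr rfl
      intro I _
      rw [dif_pos I.2]
    · intro i
      rw [← sum_coe_sort τ]
      rw [hD] at hxD
      have h1 := hxD i
      rw [← hpx, hL] at h1
      refine h1.trans (le_of_eq ?_)
      apply sum_congr rfl
      intro I _
      simp only [dif_pos I.2]

/-- **The number of the tuples in a family with a fractional cover.** -/
theorem cnt_ge {N : ℕ} (k : ℕ) (τ : Finset (Finset (Fin N))) (hdc : ∀ I ∈ τ, ∀ J ⊆ I, J ∈ τ)
    (p : Finset (Fin N) → ℝ) (hp0 : ∀ I, 0 ≤ p I) (hp1 : ∑ I ∈ τ, p I = 1)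
    (hq : ∀ i, 1 / 4 ≤ ∑ I ∈ τ, p I * (if i ∈ I then 1 else 0)) :
    (N : ℝ) ^ (k + 1) / 4 ^ k ≤
      ((univ : Finset (Fin (k + 1) → Fin N)).filter (fun j => univ.image j ∈ τ)).card := by
  classical
  obtain ⟨q, hqd⟩ : ∃ q : Fin N → ℝ, q = fun i => ∑ I ∈ τ, p I * (if i ∈ I then 1 else 0) := ⟨_, rfl⟩
  have hq4 : ∀ i, 1 / 4 ≤ q i := by intro i; rw [hqd]; exact hq i
  have hq0 : ∀ i, 0 < q i := fun i => by have := hq4 i; linarith
  obtain ⟨X, hX⟩ : ∃ X : Finset (Fin N) → ℝ, X = fun I => ∑ i ∈ I, (q i)⁻¹ := ⟨_, rfl⟩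
  have hX0 : ∀ I, 0 ≤ X I := by
    intro I
    rw [hX]
    exact sum_nonneg fun i _ => (inv_pos.2 (hq0 i)).le
  have hX4 : ∀ I, X I ≤ 4 * I.card := by
    intro I
    rw [hX]
    calc ∑ i ∈ I, (q i)⁻¹ ≤ ∑ _i ∈ I, (4 : ℝ) := by
          apply sum_le_sum
          intro i _
          rw [inv_le_comm₀ (hq0 i) (by norm_num)]
          have := hq4 i
          linarith
      _ = _ := by rw [sum_const, nsmul_eq_mul, mul_comm]
  -- one family member
  have hone : ∀ I : Finset (Fin N), ∑ j : Fin (k + 1) → Fin N, (if ∀ l, j l ∈ I then (q (j 0))⁻¹ else 0) =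
      X I * (I.card : ℝ) ^ k := by
    intro I
    have h1 := Finset.prod_univ_sum (fun _ : Fin (k + 1) => I)
      (fun (l : Fin (k + 1)) (i : Fin N) => if l = 0 then (q i)⁻¹ else 1)
    rw [Fin.prod_univ_succ] at h1
    simp only [if_true, Fin.succ_ne_zero, if_false, sum_const, nsmul_eq_mul, mul_one, prod_const, card_univ,
      Fintype.card_fin] at h1
    rw [← sum_filter]
    have h2 : (univ : Finset (Fin (k + 1) → Fin N)).filter (fun j => ∀ l, j l ∈ I) =
        Fintype.piFinset (fun _ : Fin (k + 1) => I) := by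
      ext j
      simp [Fintype.mem_piFinset]
    rw [h2, hX, h1]
    apply sum_congr rfl
    intro j _
    rw [Fin.prod_univ_succ]
    simp
  -- every good tuple
  have hj : ∀ j : Fin (k + 1) → Fin N, ∑ I ∈ τ, p I * (if ∀ l, j l ∈ I then (q (j 0))⁻¹ else 0) ≤
      if univ.image j ∈ τ then 1 else 0 := by
    intro j
    by_cases hjt : univ.image j ∈ τ
    · rw [if_pos hjt]
      calc _ ≤ ∑ I ∈ τ, (p I * (if j 0 ∈ I then 1 else 0)) * (q (j 0))⁻¹ := by
            apply sum_le_sum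
            intro I _
            rw [mul_assoc]
            apply mul_le_mul_of_nonneg_left _ (hp0 I)
            by_cases h1 : ∀ l, j l ∈ I
            · rw [if_pos h1, if_pos (h1 0), one_mul]
            · rw [if_neg h1]
              split_ifs
              · rw [one_mul]; exact (inv_pos.2 (hq0 _)).le
              · rw [zero_mul]
        _ = q (j 0) * (q (j 0))⁻¹ := by rw [← sum_mul, hqd]
        _ = 1 := mul_inv_cancel₀ (hq0 _).ne'
        _ ≤ 1 := le_rfl
    · rw [if_neg hjt]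
      apply le_of_eq
      apply sum_eq_zero
      intro I hI
      rw [if_neg, mul_zero]
      intro h1
      apply hjt
      apply hdc I hI
      intro i hi
      obtain ⟨l, -, rfl⟩ := mem_image.1 hi
      exact h1 l
  have hmean : ∑ I ∈ τ, p I * X I = N := by
    rw [hX]
    have h1 : ∀ I ∈ τ, p I * ∑ i ∈ I, (q i)⁻¹ = ∑ i, (p I * (if i ∈ I then 1 else 0)) * (q i)⁻¹ := by
      intro I _
      rw [mul_sum, ← sum_filter_add_sum_filter_not univ (fun i => i ∈ I)]
      rw [sum_eq_zero (s := univ.filter (fun i => ¬ i ∈ I)), add_zero]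
      · have : univ.filter (fun i => i ∈ I) = I := by ext i; simp
        rw [this]
        apply sum_congr rfl
        intro i hi
        rw [if_pos hi, mul_one]
      · intro i hi
        rw [if_neg (mem_filter.1 hi).2, mul_zero, zero_mul]
    rw [sum_congr rfl h1, sum_comm]
    have h2 : ∀ i ∈ (univ : Finset (Fin N)), ∑ I ∈ τ, (p I * (if i ∈ I then 1 else 0)) * (q i)⁻¹ = 1 := by
      intro i _
      rw [← sum_mul]
      have : ∑ I ∈ τ, p I * (if i ∈ I then (1 : ℝ) else 0) = q i := by rw [hqd]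
      rw [this]
      exact mul_inv_cancel₀ (hq0 i).ne'
    rw [sum_congr rfl h2]
    simp
  have hjen := Real.pow_arith_mean_le_arith_mean_pow τ p X (fun I _ => hp0 I) hp1 (fun I _ => hX0 I) (k + 1)
  rw [hmean] at hjen
  calc (N : ℝ) ^ (k + 1) / 4 ^ k ≤ (∑ I ∈ τ, p I * X I ^ (k + 1)) / 4 ^ k :=
        div_le_div_of_nonneg_right hjen (by positivity)
    _ = ∑ I ∈ τ, p I * (X I * (X I / 4) ^ k) := by
        rw [sum_div]
        apply sum_congr rfl
        intro I _
        rw [div_pow]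
        ring
    _ ≤ ∑ I ∈ τ, p I * (X I * (I.card : ℝ) ^ k) := by
        apply sum_le_sum
        intro I _
        apply mul_le_mul_of_nonneg_left _ (hp0 I)
        apply mul_le_mul_of_nonneg_left _ (hX0 I)
        apply pow_le_pow_left₀ (by have := hX0 I; positivity)
        have := hX4 I
        linarith
    _ = ∑ I ∈ τ, p I * ∑ j : Fin (k + 1) → Fin N, (if ∀ l, j l ∈ I then (q (j 0))⁻¹ else 0) := by
        apply sum_congr rfl
        intro I _
        rw [hone I]
    _ = ∑ j : Fin (k + 1) → Fin N, ∑ I ∈ τ, p I * (if ∀ l, j l ∈ I then (q (j 0))⁻¹ else 0) := by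
        simp only [mul_sum]
        rw [sum_comm]
    _ ≤ ∑ j : Fin (k + 1) → Fin N, (if univ.image j ∈ τ then (1 : ℝ) else 0) := sum_le_sum fun j _ => hj j
    _ = _ := by rw [sum_boole]

end Pool.Agent.K9h13.FC
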