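import Mathlib
import Pool.Agent.K9h13.FC.LP
import Pool.Agent.Helper22K9.Trp.Box

/-!
# The types of the tuples of a set, and the types that are not fractional covers
-/

set_option autoImplicit false

namespace Pool.Agent.K9h13.FC

open Finset

/-- the type of a tuple of points -/
noncomputable def typ {V : Type} [DecidableEq V] (G : Finset V → Prop) {N : ℕ} (v : Fin N → V) :
    Finset (Finset (Fin N)) := by
  classical exact univ.filter (fun I => G (I.image v))

lemma mem_typ {V : Type} [DecidableEq V] (G : Finset V → Prop) {N : ℕ} (v : Fin N → V) (I : Finset (Fin N)) :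
    I ∈ typ G v ↔ G (I.image v) := by
  unfold typ
  simp

/-- the hypothesis: among `4 s` disjoint sets with `K` elements some `s + 1` have a good transversal -/
def Prp {V : Type} [DecidableEq V] (G : Finset V → Prop) (s K : ℕ) : Prop :=
  ∀ f : Fin (4 * s) → Fin K → V, Function.Injective (fun z : Fin (4 * s) × Fin K => f z.1 z.2) →
    ∃ τ : Fin (4 * s) → Fin K, ∃ e : Finset V, e.card = s + 1 ∧ e ⊆ univ.image (fun i => f i (τ i)) ∧ G e

/-- a box of the type `τ` -/
lemma not_box {V : Type} [DecidableEq V] (G : Finset V → Prop) (hG : ∀ e e', e ⊆ e' → G e' → G e) {N s K : ℕ}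
    (hs : 1 ≤ s) (hP : Prp G s K) (τ : Finset (Finset (Fin N))) (hb : Bad τ s)
    (f : Fin N → Fin (4 * s * K) → V) (hf1 : ∀ i, Function.Injective (f i))
    (hf2 : ∀ σ : Fin N → Fin (4 * s * K), Function.Injective (fun i => f i (σ i)) ∧ typ G (fun i => f i (σ i)) = τ) :
    False := by
  classical
  obtain ⟨m, hm1, hm2⟩ := hb
  -- the assignment of the classes
  obtain ⟨E⟩ : Nonempty ((Σ i : Fin N, Fin (m i)) ≃ Fin (4 * s)) := by
    apply Fintype.card_eq.1
    rw [Fintype.card_sigma, Fintype.card_fin]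
    simp only [Fintype.card_fin]
    exact hm1
  obtain ⟨c, hc⟩ : ∃ c : Fin (4 * s) → Fin N, c = fun a => (E.symm a).1 := ⟨_, rfl⟩
  have hcount : ∀ (T : Finset (Fin (4 * s))) (I : Finset (Fin N)), (∀ a ∈ T, c a ∈ I) → T.card ≤ ∑ i ∈ I, m i := by
    intro T I hTI
    have h1 : T.card = (T.image E.symm).card := (card_image_of_injective _ E.symm.injective).symm
    rw [h1]
    calc _ ≤ (I.sigma (fun i => (univ : Finset (Fin (m i))))).card := by
          apply card_le_card
          intro x hx
          obtain ⟨a, ha, rfl⟩ := mem_image.1 hx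
          rw [mem_sigma]
          refine ⟨?_, mem_univ _⟩
          have := hTI a ha
          rw [hc] at this
          exact this
      _ = _ := by
          rw [card_sigma]
          apply sum_congr rfl
          intro i _
          rw [card_univ, Fintype.card_fin]
  -- the classes
  obtain ⟨g, hg⟩ : ∃ g : Fin (4 * s) → Fin K → V, g = fun a b => f (c a) (finProdFinEquiv (a, b)) := ⟨_, rfl⟩
  have hne : ∀ i j : Fin N, ∀ a b, i ≠ j → f i a ≠ f j b := by
    intro i j a b hij h
    have h1 := (hf2 (Function.update (fun _ => b) i a)).1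
    apply hij
    apply h1
    show f i (Function.update (fun _ => b) i a i) = f j (Function.update (fun _ => b) i a j)
    rw [Function.update_self, Function.update_of_ne (Ne.symm hij)]
    exact h
  have hginj : Function.Injective (fun z : Fin (4 * s) × Fin K => g z.1 z.2) := by
    rintro ⟨a, b⟩ ⟨a', b'⟩ h
    rw [hg] at h
    have h' : f (c a) (finProdFinEquiv (a, b)) = f (c a') (finProdFinEquiv (a', b')) := h
    by_cases hca : c a = c a'
    · rw [hca] at h'
      exact finProdFinEquiv.injective (hf1 _ h')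
    · exact absurd h' (hne _ _ _ _ hca)
  obtain ⟨t, e, he1, he2, he3⟩ := hP g hginj
  obtain ⟨T, hT⟩ : ∃ T : Finset (Fin (4 * s)), T = univ.filter (fun a => g a (t a) ∈ e) := ⟨_, rfl⟩
  have hTe : e ⊆ T.image (fun a => g a (t a)) := by
    intro x hx
    obtain ⟨a, -, rfl⟩ := mem_image.1 (he2 hx)
    exact mem_image.2 ⟨a, by rw [hT, mem_filter]; exact ⟨mem_univ _, hx⟩, rfl⟩
  have hTc : s + 1 ≤ T.card := by
    rw [← he1]
    exact (card_le_card hTe).trans card_image_le
  have hTne : T.Nonempty := by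
    rw [← card_pos]
    omega
  obtain ⟨a0, ha0⟩ := hTne
  obtain ⟨I, hI⟩ : ∃ I, I = T.image c := ⟨_, rfl⟩
  have hch : ∀ i : Fin N, ∃ a ∈ T, i ∈ I → c a = i := by
    intro i
    by_cases hi : i ∈ I
    · rw [hI] at hi
      obtain ⟨a, ha, hai⟩ := mem_image.1 hi
      exact ⟨a, ha, fun _ => hai⟩
    · exact ⟨a0, ha0, fun h => absurd h hi⟩
  choose a ha1 ha2 using hch
  have hty := (hf2 (fun i => finProdFinEquiv (a i, t (a i)))).2
  have hIt : I ∈ τ := by
    rw [← hty, mem_typ]
    apply hG _ e _ he3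
    intro x hx
    obtain ⟨i, hi, rfl⟩ := mem_image.1 hx
    have h1 := ha1 i
    rw [hT, mem_filter] at h1
    have h2 := h1.2
    rw [hg] at h2
    have h3 := ha2 i hi
    simp only [h3] at h2
    exact h2
  have h1 := hm2 I hIt
  have h2 := hcount T I (fun a ha => by rw [hI]; exact mem_image_of_mem c ha)
  omega

/-- **The bad types are rare.** -/
theorem bad_few (N s K : ℕ) (hs : 1 ≤ s) (τ : Finset (Finset (Fin N))) (hb : Bad τ s) (δ : ℝ) (hδ : 0 < δ) :
    ∃ N₀ : ℕ, ∀ (V : Type) [Fintype V] [DecidableEq V], N₀ ≤ Fintype.card V → ∀ G : Finset V → Prop,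
      (∀ e e', e ⊆ e' → G e' → G e) → Prp G s K →
      (((univ : Finset (Fin N → V)).filter (fun v => Function.Injective v ∧ typ G v = τ)).card : ℝ) ≤
        δ * (Fintype.card V : ℝ) ^ N := by
  obtain ⟨N₀, h⟩ := Pool.Agent.Helper22K9.Trp.box (4 * s * K) N δ hδ
  refine ⟨N₀, fun V _ _ hV G hG hP => ?_⟩
  by_contra hcon
  push Not at hcon
  obtain ⟨f, hf1, hf2⟩ := h V hV _ hcon.le
  exact not_box G hG hs hP τ hb f hf1 (fun σ => (mem_filter.1 (hf2 σ)).2)

end Pool.Agent.K9h13.FC
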