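import Mathlib
import Pool.Agent.K9h13.FC.BX

/-!
# The density of the good tuples
-/

set_option autoImplicit false

namespace Pool.Agent.K9h13.FC

open Finset

/-- the functions with a given restriction -/
lemma card_fiber {V : Type} [Fintype V] [DecidableEq V] {m N : ℕ} (j : Fin m → Fin N) (hj : Function.Injective j)
    (u : Fin m → V) :
    ((univ : Finset (Fin N → V)).filter (fun v => (fun l => v (j l)) = u)).card * Fintype.card V ^ m =
      Fintype.card V ^ N := by
  classical
  have h1 : (univ : Finset (Fin N → V)).filter (fun v => (fun l => v (j l)) = u) =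
      Fintype.piFinset (fun i : Fin N => if h : ∃ l, j l = i then {u h.choose} else univ) := by
    ext v
    rw [mem_filter, Fintype.mem_piFinset]
    constructor
    · rintro ⟨-, h⟩ i
      split_ifs with hi
      · rw [mem_singleton, ← h]
        show v i = v (j hi.choose)
        rw [hi.choose_spec]
      · exact mem_univ _
    · intro h
      refine ⟨mem_univ _, ?_⟩
      funext l
      have h2 := h (j l)
      have hex : ∃ l', j l' = j l := ⟨l, rfl⟩
      rw [dif_pos hex, mem_singleton] at h2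
      rw [h2, hj hex.choose_spec]
  rw [h1, Fintype.card_piFinset]
  have h2 : ∀ i : Fin N, (if h : ∃ l, j l = i then ({u h.choose} : Finset V) else univ).card =
      if i ∈ univ.image j then 1 else Fintype.card V := by
    intro i
    by_cases hi : ∃ l, j l = i
    · rw [dif_pos hi, if_pos (by rw [mem_image]; obtain ⟨l, hl⟩ := hi; exact ⟨l, mem_univ _, hl⟩), card_singleton]
    · rw [dif_neg hi, if_neg (by
        rw [mem_image]
        rintro ⟨l, -, hl⟩
        exact hi ⟨l, hl⟩), card_univ]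
  rw [prod_congr rfl (fun i _ => h2 i), prod_ite, prod_const_one, one_mul, prod_const, ← pow_add]
  congr 1
  have h3 : (univ.filter (fun i => ¬ i ∈ univ.image j)).card + (univ.image j).card = N := by
    have h4 := card_filter_add_card_filter_not (s := (univ : Finset (Fin N))) (fun i => i ∈ univ.image j)
    rw [card_univ, Fintype.card_fin] at h4
    have h5 : univ.filter (fun i => i ∈ univ.image j) = univ.image j := by ext i; simp
    rw [h5] at h4
    omega
  rw [card_image_of_injective _ hj, card_univ, Fintype.card_fin] at h3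
  exact h3

/-- counting along an injection -/
lemma card_comp {V : Type} [Fintype V] [DecidableEq V] {m N : ℕ} (j : Fin m → Fin N) (hj : Function.Injective j)
    (P : (Fin m → V) → Prop) [DecidablePred P] :
    ((univ : Finset (Fin N → V)).filter (fun v => P (fun l => v (j l)))).card * Fintype.card V ^ m =
      ((univ : Finset (Fin m → V)).filter P).card * Fintype.card V ^ N := by
  classical
  have h1 := card_eq_sum_card_fiberwise (s := (univ : Finset (Fin N → V)).filter (fun v => P (fun l => v (j l))))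
    (t := (univ : Finset (Fin m → V)).filter P) (f := fun v l => v (j l)) (by
      intro v hv
      rw [coe_filter] at hv ⊢
      exact ⟨mem_univ _, hv.2⟩)
  rw [h1, sum_mul]
  have h2 : ∀ u ∈ (univ : Finset (Fin m → V)).filter P,
      (((univ : Finset (Fin N → V)).filter (fun v => P (fun l => v (j l)))).filter
        (fun v => (fun l => v (j l)) = u)).card * Fintype.card V ^ m = Fintype.card V ^ N := by
    intro u hu
    rw [filter_filter]
    have h3 : (univ : Finset (Fin N → V)).filter (fun v => P (fun l => v (j l)) ∧ (fun l => v (j l)) = u) =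
        univ.filter (fun v => (fun l => v (j l)) = u) := by
      apply filter_congr
      intro v _
      constructor
      · exact fun h => h.2
      · intro h
        refine ⟨?_, h⟩
        rw [h]
        exact (mem_filter.1 hu).2
    rw [h3]
    exact card_fiber j hj u
  rw [sum_congr rfl h2, sum_const, smul_eq_mul]

/-- the non injective functions -/
lemma noninj_le {V : Type} [Fintype V] [DecidableEq V] (k : ℕ) (hV : 0 < Fintype.card V) :
    (((univ : Finset (Fin k → V)).filter (fun y => ¬ Function.Injective y)).card : ℝ) ≤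
      (k : ℝ) ^ 2 * ((Fintype.card V : ℝ) ^ k / Fintype.card V) := by
  have h1 := Pool.Agent.Helper22K9.Trp.noninj (V := V) k
  have h2 : (((univ : Finset (Fin k → V)).filter (fun y => ¬ Function.Injective y)).card : ℝ) * Fintype.card V ≤
      (k : ℝ) ^ 2 * (Fintype.card V : ℝ) ^ k := by exact_mod_cast h1
  have h3 : (0 : ℝ) < Fintype.card V := by exact_mod_cast hV
  rw [← mul_div_assoc, le_div_iff₀ h3]
  exact h2

/-- **The density of the good tuples in a finite type.** -/
theorem dens4V (k : ℕ) (ε : ℝ) (hε : 0 < ε) : ∃ S₀ : ℕ, ∀ Kf : ℕ → ℕ, ∃ N₀ : ℕ, ∀ (V : Type) [Fintype V]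
    [DecidableEq V], N₀ ≤ Fintype.card V → ∀ G : Finset V → Prop, (∀ e e', e ⊆ e' → G e' → G e) →
    (∀ s, 1 ≤ s → s ≤ S₀ → Prp G s (Kf s)) → ∀ Q : Finset (Fin (k + 1) → V),
    (∀ u, Function.Injective u → G (univ.image u) → u ∈ Q) →
    (1 / 4 ^ k - ε) * (Fintype.card V : ℝ) ^ (k + 1) ≤ Q.card := by
  classical
  -- the number `N`
  obtain ⟨N₂, hN₂⟩ := exists_nat_ge (((k + 1 : ℕ) : ℝ) ^ 2 * 4 / ε)
  obtain ⟨N, hN⟩ : ∃ N, N = max N₂ 1 := ⟨_, rfl⟩
  have hN1 : 1 ≤ N := by rw [hN]; exact le_max_right _ _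
  have hN0 : (0 : ℝ) < N := by exact_mod_cast hN1
  have hNε : ((k + 1 : ℕ) : ℝ) ^ 2 / N ≤ ε / 4 := by
    have h1 : (N₂ : ℝ) ≤ N := by rw [hN]; exact_mod_cast le_max_left _ _
    have h2 := hN₂.trans h1
    rw [div_le_iff₀ hε] at h2
    rw [div_le_iff₀ hN0]
    linarith
  -- the witnesses of the bad types
  obtain ⟨sw, hsw⟩ : ∃ sw : Finset (Finset (Fin N)) → ℕ, sw = fun τ =>
    if h : ∃ s, 1 ≤ s ∧ Bad τ s then h.choose else 0 := ⟨_, rfl⟩
  have hsw1 : ∀ τ, (∃ s, 1 ≤ s ∧ Bad τ s) → 1 ≤ sw τ ∧ Bad τ (sw τ) := by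
    intro τ h
    rw [hsw]
    simp only [dif_pos h]
    exact h.choose_spec
  obtain ⟨M, hM⟩ : ∃ M : ℕ, M = (univ : Finset (Finset (Finset (Fin N)))).card := ⟨_, rfl⟩
  have hM0 : (0 : ℝ) < M := by
    rw [hM]
    exact_mod_cast card_pos.2 univ_nonempty
  refine ⟨univ.sup sw, fun Kf => ?_⟩
  have hδ : 0 < ε / (4 * M) := by positivity
  have hex : ∀ τ : Finset (Finset (Fin N)), ∃ N₀ : ℕ, (∃ s, 1 ≤ s ∧ Bad τ s) → ∀ (V : Type) [Fintype V]
      [DecidableEq V], N₀ ≤ Fintype.card V → ∀ G : Finset V → Prop, (∀ e e', e ⊆ e' → G e' → G e) →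
      Prp G (sw τ) (Kf (sw τ)) →
      (((univ : Finset (Fin N → V)).filter (fun v => Function.Injective v ∧ typ G v = τ)).card : ℝ) ≤
        ε / (4 * M) * (Fintype.card V : ℝ) ^ N := by
    intro τ
    by_cases h : ∃ s, 1 ≤ s ∧ Bad τ s
    · obtain ⟨N₀, h1⟩ := bad_few N (sw τ) (Kf (sw τ)) (hsw1 τ h).1 τ (hsw1 τ h).2 _ hδ
      exact ⟨N₀, fun _ V _ _ hV G hG hP => h1 V hV G hG hP⟩
    · exact ⟨0, fun h' => absurd h' h⟩
  choose N₀ hN₀ using hex
  obtain ⟨N₁, hN₁⟩ := exists_nat_ge (((N : ℝ) ^ 2 + ((k + 1 : ℕ) : ℝ) ^ 2) * 4 / ε)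
  refine ⟨max (univ.sup N₀) (max N₁ 1), fun V _ _ hV G hG hP Q hQ => ?_⟩
  have hV1 : 1 ≤ Fintype.card V := ((le_max_right _ _).trans (le_max_right _ _)).trans hV
  obtain ⟨n, hn⟩ : ∃ n : ℝ, n = (Fintype.card V : ℝ) := ⟨_, rfl⟩
  have hn0 : 0 < n := by rw [hn]; exact_mod_cast hV1
  have hnN : ((N : ℝ) ^ 2 + ((k + 1 : ℕ) : ℝ) ^ 2) / n ≤ ε / 4 := by
    have h1 : (N₁ : ℝ) ≤ n := by
      rw [hn]
      exact_mod_cast ((le_max_left _ _).trans (le_max_right _ _)).trans hV
    have h2 := hN₁.trans h1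
    rw [div_le_iff₀ hε] at h2
    rw [div_le_iff₀ hn0]
    linarith
  have hNn : (N : ℝ) ^ 2 / n + ((k + 1 : ℕ) : ℝ) ^ 2 / n ≤ ε / 4 := by rw [← add_div]; exact hnN
  rw [← hn]
  -- the number of the good `k + 1`-tuples
  obtain ⟨T, hT⟩ : ∃ T : ℝ, T = (((univ : Finset (Fin (k + 1) → V)).filter (fun u => G (univ.image u))).card : ℝ) :=
    ⟨_, rfl⟩
  have hTQ : T ≤ Q.card + ((k + 1 : ℕ) : ℝ) ^ 2 * (n ^ (k + 1) / n) := by
    have h1 := noninj_le (V := V) (k + 1) hV1
    rw [← hn] at h1
    have h2 : ((univ : Finset (Fin (k + 1) → V)).filter (fun u => G (univ.image u))).card ≤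
        Q.card + ((univ : Finset (Fin (k + 1) → V)).filter (fun y => ¬ Function.Injective y)).card := by
      refine (card_le_card ?_).trans (card_union_le _ _)
      intro u hu
      rw [mem_union, mem_filter]
      by_cases hi : Function.Injective u
      · exact Or.inl (hQ u hi (mem_filter.1 hu).2)
      · exact Or.inr ⟨mem_univ _, hi⟩
    have h3 : T ≤ Q.card + (((univ : Finset (Fin (k + 1) → V)).filter
        (fun y => ¬ Function.Injective y)).card : ℝ) := by
      rw [hT]
      exact_mod_cast h2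
    linarith
  -- the good and the bad `N`-tuples
  obtain ⟨Gd, hGd⟩ : ∃ Gd : Finset (Fin N → V), Gd = univ.filter (fun v => Function.Injective v ∧
    ¬ ∃ s, 1 ≤ s ∧ Bad (typ G v) s) := ⟨_, rfl⟩
  have hGc : (1 - (N : ℝ) ^ 2 / n - ε / 4) * n ^ N ≤ Gd.card := by
    have h1 : (univ : Finset (Fin N → V)) ⊆ (Gd ∪ univ.filter (fun v => ¬ Function.Injective v)) ∪
        (univ : Finset (Finset (Finset (Fin N)))).biUnion (fun τ => if (∃ s, 1 ≤ s ∧ Bad τ s) then
          univ.filter (fun v => Function.Injective v ∧ typ G v = τ) else ∅) := by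
      intro v _
      rw [mem_union, mem_union, mem_biUnion]
      by_cases hi : Function.Injective v
      · by_cases hb : ∃ s, 1 ≤ s ∧ Bad (typ G v) s
        · right
          refine ⟨typ G v, mem_univ _, ?_⟩
          rw [if_pos hb, mem_filter]
          exact ⟨mem_univ _, hi, rfl⟩
        · left; left
          rw [hGd, mem_filter]
          exact ⟨mem_univ _, hi, hb⟩
      · left; right
        rw [mem_filter]
        exact ⟨mem_univ _, hi⟩
    have h2 := (card_le_card h1).trans ((card_union_le _ _).trans (add_le_add (card_union_le _ _) card_biUnion_le))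
    have h3 : (n ^ N : ℝ) ≤ Gd.card + (((univ : Finset (Fin N → V)).filter
        (fun v => ¬ Function.Injective v)).card : ℝ) +
        ∑ τ : Finset (Finset (Fin N)), ((if (∃ s, 1 ≤ s ∧ Bad τ s) then
          univ.filter (fun v : Fin N → V => Function.Injective v ∧ typ G v = τ) else ∅).card : ℝ) := by
      have h4 : ((univ : Finset (Fin N → V)).card : ℝ) = n ^ N := by
        rw [card_univ, Fintype.card_fun, Fintype.card_fin, hn]
        push_cast
        rfl
      rw [← h4]
      exact_mod_cast h2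
    have h5 : ∑ τ : Finset (Finset (Fin N)), ((if (∃ s, 1 ≤ s ∧ Bad τ s) then
          univ.filter (fun v : Fin N → V => Function.Injective v ∧ typ G v = τ) else ∅).card : ℝ) ≤
        ∑ _τ : Finset (Finset (Fin N)), ε / (4 * M) * n ^ N := by
      apply sum_le_sum
      intro τ _
      by_cases hb : ∃ s, 1 ≤ s ∧ Bad τ s
      · rw [if_pos hb, hn]
        refine hN₀ τ hb V ?_ G hG (hP _ (hsw1 τ hb).1 (le_sup (f := sw) (mem_univ τ)))
        exact (le_sup (f := N₀) (mem_univ τ)).trans ((le_max_left _ _).trans hV)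
      · rw [if_neg hb, card_empty]
        push_cast
        positivity
    rw [sum_const, ← hM, nsmul_eq_mul] at h5
    have h6 : (M : ℝ) * (ε / (4 * M) * n ^ N) = ε / 4 * n ^ N := by
      field_simp
    rw [h6] at h5
    have h7 := noninj_le (V := V) N hV1
    rw [← hn] at h7
    have h8 : (N : ℝ) ^ 2 * (n ^ N / n) = (N : ℝ) ^ 2 / n * n ^ N := by ring
    rw [h8] at h7
    nlinarith
  -- double counting
  obtain ⟨Φ, hΦ⟩ : ∃ Φ : ℝ, Φ = ∑ v : Fin N → V, ∑ j : Fin (k + 1) → Fin N,
    (if G (univ.image (fun l => v (j l))) then (1 : ℝ) else 0) := ⟨_, rfl⟩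
  have hlow : (Gd.card : ℝ) * ((N : ℝ) ^ (k + 1) / 4 ^ k) ≤ Φ := by
    have h1 : ∀ v ∈ Gd, (N : ℝ) ^ (k + 1) / 4 ^ k ≤ ∑ j : Fin (k + 1) → Fin N,
        (if G (univ.image (fun l => v (j l))) then (1 : ℝ) else 0) := by
      intro v hv
      rw [hGd, mem_filter] at hv
      have hnb : ∀ s, 1 ≤ s → ¬ Bad (typ G v) s := fun s hs hb => hv.2.2 ⟨s, hs, hb⟩
      obtain ⟨p, hp0, hp1, hp2⟩ := lp hN1 (typ G v) hnb
      have h2 := cnt_ge k (typ G v) (by
        intro I hI J hJ
        rw [mem_typ] at hI ⊢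
        exact hG _ _ (image_subset_image hJ) hI) p hp0 hp1 hp2
      refine h2.trans (le_of_eq ?_)
      rw [sum_boole]
      congr 2
      ext j
      rw [mem_filter, mem_filter, mem_typ, image_image]
      rfl
    calc _ = ∑ _v ∈ Gd, (N : ℝ) ^ (k + 1) / 4 ^ k := by rw [sum_const, nsmul_eq_mul]
      _ ≤ ∑ v ∈ Gd, ∑ j : Fin (k + 1) → Fin N, (if G (univ.image (fun l => v (j l))) then (1 : ℝ) else 0) :=
          sum_le_sum h1
      _ ≤ _ := by
          rw [hΦ]
          apply sum_le_sum_of_subset_of_nonneg (subset_univ _)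
          intro v _ _
          apply sum_nonneg
          intro j _
          split_ifs <;> norm_num
  have hup : Φ ≤ (N : ℝ) ^ (k + 1) * (T * n ^ N / n ^ (k + 1)) + ((k + 1 : ℕ) : ℝ) ^ 2 * ((N : ℝ) ^ (k + 1) / N) * n ^ N := by
    rw [hΦ, sum_comm]
    have h1 : ∀ j : Fin (k + 1) → Fin N, ∑ v : Fin N → V, (if G (univ.image (fun l => v (j l))) then (1 : ℝ) else 0) ≤
        T * n ^ N / n ^ (k + 1) + (if ¬ Function.Injective j then n ^ N else 0) := by
      intro j
      by_cases hi : Function.Injective j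
      · rw [if_neg (not_not.2 hi), add_zero, le_div_iff₀ (by positivity), sum_boole]
        have h2 := card_comp (V := V) j hi (fun u => G (univ.image u))
        rw [hT, hn]
        apply le_of_eq
        exact_mod_cast h2
      · rw [if_pos hi]
        have h2 : ∑ v : Fin N → V, (if G (univ.image (fun l => v (j l))) then (1 : ℝ) else 0) ≤
            ∑ _v : Fin N → V, (1 : ℝ) := by
          apply sum_le_sum
          intro v _
          split_ifs <;> norm_num
        rw [sum_const, card_univ, Fintype.card_fun, Fintype.card_fin, nsmul_eq_mul, mul_one] at h2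
        have h3 : ((Fintype.card V ^ N : ℕ) : ℝ) = n ^ N := by rw [hn]; push_cast; rfl
        rw [h3] at h2
        have h4 : 0 ≤ T := by rw [hT]; positivity
        have h5 : 0 ≤ T * n ^ N / n ^ (k + 1) := by positivity
        linarith
    refine (sum_le_sum fun j _ => h1 j).trans ?_
    rw [sum_add_distrib, sum_const, card_univ, Fintype.card_fun, Fintype.card_fin, Fintype.card_fin, nsmul_eq_mul,
      ← sum_filter, sum_const, nsmul_eq_mul]
    have h2 := noninj_le (V := Fin N) (k + 1) (by rw [Fintype.card_fin]; exact hN1)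
    rw [Fintype.card_fin] at h2
    have h3 := mul_le_mul_of_nonneg_right h2 (by positivity : 0 ≤ n ^ N)
    push_cast at h3 ⊢
    linarith
  -- conclusion
  have hnN' : 0 < n ^ N := by positivity
  have hNk : 0 < (N : ℝ) ^ (k + 1) := by positivity
  have hnk : 0 < n ^ (k + 1) := by positivity
  have h4k : (1 : ℝ) ≤ 4 ^ k := one_le_pow₀ (by norm_num)
  have h1 : (1 - (N : ℝ) ^ 2 / n - ε / 4) * n ^ N * ((N : ℝ) ^ (k + 1) / 4 ^ k) ≤
      (N : ℝ) ^ (k + 1) * (T * n ^ N / n ^ (k + 1)) + ((k + 1 : ℕ) : ℝ) ^ 2 * ((N : ℝ) ^ (k + 1) / N) * n ^ N :=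
    (mul_le_mul_of_nonneg_right hGc (by positivity)).trans (hlow.trans hup)
  have h2 : (1 - (N : ℝ) ^ 2 / n - ε / 4) / 4 ^ k ≤ T / n ^ (k + 1) + ((k + 1 : ℕ) : ℝ) ^ 2 / N := by
    have h3 : (1 - (N : ℝ) ^ 2 / n - ε / 4) * n ^ N * ((N : ℝ) ^ (k + 1) / 4 ^ k) =
        ((1 - (N : ℝ) ^ 2 / n - ε / 4) / 4 ^ k) * ((N : ℝ) ^ (k + 1) * n ^ N) := by ring
    have h4 : (N : ℝ) ^ (k + 1) * (T * n ^ N / n ^ (k + 1)) + ((k + 1 : ℕ) : ℝ) ^ 2 * ((N : ℝ) ^ (k + 1) / N) * n ^ N =
        (T / n ^ (k + 1) + ((k + 1 : ℕ) : ℝ) ^ 2 / N) * ((N : ℝ) ^ (k + 1) * n ^ N) := by ring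
    rw [h3, h4] at h1
    exact le_of_mul_le_mul_right h1 (by positivity)
  have h3 : (1 : ℝ) / 4 ^ k - (N : ℝ) ^ 2 / n - ε / 4 ≤ (1 - (N : ℝ) ^ 2 / n - ε / 4) / 4 ^ k := by
    have h4 : 0 ≤ (N : ℝ) ^ 2 / n + ε / 4 := by positivity
    have h5 : ((N : ℝ) ^ 2 / n + ε / 4) / 4 ^ k ≤ (N : ℝ) ^ 2 / n + ε / 4 := div_le_self h4 h4k
    have h6 : (1 - (N : ℝ) ^ 2 / n - ε / 4) / 4 ^ k = 1 / 4 ^ k - ((N : ℝ) ^ 2 / n + ε / 4) / 4 ^ k := by ring
    rw [h6]
    linarith
  have h4 : T / n ^ (k + 1) ≤ Q.card / n ^ (k + 1) + ((k + 1 : ℕ) : ℝ) ^ 2 / n := by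
    have h5 := div_le_div_of_nonneg_right hTQ hnk.le
    refine h5.trans (le_of_eq ?_)
    field_simp
  have h5 : (1 : ℝ) / 4 ^ k - ε ≤ Q.card / n ^ (k + 1) := by linarith
  rwa [le_div_iff₀ hnk] at h5

/-- **The density of the good tuples in a finite set of integers.** -/
theorem dens4 (k : ℕ) (ε : ℝ) (hε : 0 < ε) : ∃ S₀ : ℕ, ∀ Kf : ℕ → ℕ, ∃ N₀ : ℕ, ∀ A : Finset ℕ, N₀ ≤ A.card →
    ∀ G : Finset ℕ → Prop, (∀ e e', e ⊆ e' → G e' → G e) →
    (∀ s, 1 ≤ s → s ≤ S₀ → ∀ f : Fin (4 * s) → Fin (Kf s) → ℕ, (∀ i a, f i a ∈ A) →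
      Function.Injective (fun z : Fin (4 * s) × Fin (Kf s) => f z.1 z.2) →
      ∃ τ : Fin (4 * s) → Fin (Kf s), ∃ e : Finset ℕ, e.card = s + 1 ∧ e ⊆ univ.image (fun i => f i (τ i)) ∧ G e) →
    ∀ E : Finset (Finset ℕ), (∀ e ⊆ A, e.card = k + 1 → G e → e ∈ E) →
    (1 / 4 ^ k - ε) * (A.card : ℝ) ^ (k + 1) ≤ (E.card : ℝ) * (k + 1).factorial := by
  classical
  obtain ⟨S₀, h⟩ := dens4V k ε hε
  refine ⟨S₀, fun Kf => ?_⟩
  obtain ⟨N₀, h⟩ := h Kf
  refine ⟨N₀, fun A hA G hG hP E hE => ?_⟩
  have hcard : Fintype.card A = A.card := Fintype.card_coe A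
  have key := h A (by rw [hcard]; exact hA) (fun e => G (e.map (Function.Embedding.subtype _)))
    (fun e e' hee h1 => hG _ _ (map_subset_map.2 hee) h1) (by
      intro s hs hs' f hf
      obtain ⟨τ, e, he1, he2, he3⟩ := hP s hs hs' (fun i a => (f i a : ℕ)) (fun i a => (f i a).2) (by
        intro z z' hz
        exact hf (Subtype.ext hz))
      have heA : e ⊆ A := by
        intro x hx
        obtain ⟨i, -, rfl⟩ := mem_image.1 (he2 hx)
        exact (f i (τ i)).2
      have hmap : (e.subtype (· ∈ A)).map (Function.Embedding.subtype _) = e := by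
        rw [subtype_map]
        exact filter_true_of_mem heA
      refine ⟨τ, e.subtype (· ∈ A), ?_, ?_, ?_⟩
      · rw [← he1, ← hmap, card_map, hmap]
      · intro z hz
        rw [mem_subtype] at hz
        obtain ⟨i, -, hi⟩ := mem_image.1 (he2 hz)
        exact mem_image.2 ⟨i, mem_univ _, Subtype.ext hi⟩
      · show G ((e.subtype (· ∈ A)).map (Function.Embedding.subtype _))
        rw [hmap]
        exact he3)
    (univ.filter (fun u : Fin (k + 1) → A => Function.Injective u ∧
      (univ.image (fun i => (u i : ℕ))) ∈ E)) (by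
      intro u hu hGu
      rw [mem_filter]
      have h1 : (univ.image u).map (Function.Embedding.subtype _) = univ.image (fun i => (u i : ℕ)) := by
        rw [map_eq_image, image_image]
        rfl
      refine ⟨mem_univ _, hu, hE _ ?_ ?_ ?_⟩
      · intro x hx
        obtain ⟨i, -, rfl⟩ := mem_image.1 hx
        exact (u i).2
      · rw [card_image_of_injective _ (fun i j hij => hu (Subtype.ext hij)), card_univ, Fintype.card_fin]
      · rw [← h1]
        exact hGu)
  rw [hcard] at key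
  refine key.trans ?_
  -- injective enumerations of a set
  have h1 : (univ.filter (fun u : Fin (k + 1) → A => Function.Injective u ∧
      (univ.image (fun i => (u i : ℕ))) ∈ E)).card ≤ E.card * (k + 1).factorial := by
    refine card_le_mul_card_image_of_maps_to (s := univ.filter (fun u : Fin (k + 1) → A => Function.Injective u ∧
      (univ.image (fun i => (u i : ℕ))) ∈ E)) (t := E) (f := fun u => univ.image (fun i => (u i : ℕ)))
      (fun u hu => (mem_filter.1 hu).2.2) (k + 1).factorial ?_ |>.trans (le_of_eq (mul_comm _ _))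
    intro e he
    -- the injective maps with image `e`
    rcases (((univ.filter (fun u : Fin (k + 1) → A => Function.Injective u ∧
      (univ.image (fun i => (u i : ℕ))) ∈ E)).filter (fun u => univ.image (fun i => (u i : ℕ)) = e)).eq_empty_or_nonempty)
      with h0 | ⟨u0, hu0⟩
    · rw [h0]
      simp
    · rw [mem_filter, mem_filter] at hu0
      obtain ⟨⟨-, hu0i, -⟩, hu0e⟩ := hu0
      have hsub : ((univ.filter (fun u : Fin (k + 1) → A => Function.Injective u ∧
          (univ.image (fun i => (u i : ℕ))) ∈ E)).filter (fun u => univ.image (fun i => (u i : ℕ)) = e)) ⊆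
          (univ : Finset (Equiv.Perm (Fin (k + 1)))).image (fun π => fun i => u0 (π i)) := by
        intro u hu
        rw [mem_filter, mem_filter] at hu
        obtain ⟨⟨-, hui, -⟩, hue⟩ := hu
        have hex : ∀ i, ∃ j, u0 j = u i := by
          intro i
          have h2 : (u i : ℕ) ∈ e := by rw [← hue]; exact mem_image_of_mem _ (mem_univ i)
          rw [← hu0e] at h2
          obtain ⟨j, -, hj⟩ := mem_image.1 h2
          exact ⟨j, Subtype.ext hj⟩
        choose π hπ using hex
        have hπi : Function.Injective π := by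
          intro i j hij
          apply hui
          rw [← hπ i, ← hπ j, hij]
        rw [mem_image]
        refine ⟨Equiv.ofBijective π (Finite.injective_iff_bijective.1 hπi), mem_univ _, ?_⟩
        funext i
        exact hπ i
      refine (card_le_card hsub).trans (card_image_le.trans ?_)
      rw [card_univ, Fintype.card_perm, Fintype.card_fin]
  exact_mod_cast h1

end Pool.Agent.K9h13.FC
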