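import Mathlib
import Pool.Agent.K9h13.FC.DN
import Pool.Agent.Helper22K9.Trp.Mass

/-!
# The singular series of the good tuples in an arbitrary finite set
-/

set_option autoImplicit false

namespace Pool.Agent.K9h13.FC

open Finset Filter Topology Pool.Agent.H387R2
open Pool.Agent.Helper22K9.Trp (cnt boxgood gd CT_ge' card_cop)

lemma cnt_mono {e e' : Finset ℕ} (h : e ⊆ e') (X : ℕ) : cnt e' X ≤ cnt e X := by
  unfold cnt
  apply card_le_card
  intro n hn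
  rw [mem_filter] at hn ⊢
  exact ⟨hn.1, fun t ht => hn.2 t (h ht)⟩

/-- **The mass of the good tuples.** -/
theorem mass4 (s : ℕ) (ε : ℝ) (hε : 0 < ε) : ∃ A₀ : ℕ, ∀ η : ℝ, 0 < η → ∀ᶠ X : ℕ in atTop,
    ∀ A : Finset ℕ, A₀ ≤ A.card → (∀ a ∈ A, a ^ 2 ≤ X) →
    (1 / 4 ^ s - ε) * (A.card : ℝ) ^ (s + 1) ≤ (s + 1).factorial * ∑ T ∈ gd s η X A, Uni.CT T := by
  classical
  obtain ⟨c, hc⟩ : ∃ c : ℝ, c = 1 / 4 ^ s := ⟨_, rfl⟩
  rw [← hc]
  have hC1 : (1 : ℝ) ≤ 4 ^ s := one_le_pow₀ (by norm_num)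
  have hc1 : c ≤ 1 := by rw [hc, div_le_one (by linarith)]; exact hC1
  have hc0 : 0 < c := by rw [hc]; positivity
  obtain ⟨ε₁, hε₁⟩ : ∃ ε₁ : ℝ, ε₁ = min (ε / 3) (c / 2) := ⟨_, rfl⟩
  have hε₁0 : 0 < ε₁ := by rw [hε₁]; positivity
  have hε₁1 : ε₁ ≤ ε / 3 := by rw [hε₁]; exact min_le_left _ _
  have hε₁2 : ε₁ ≤ c / 2 := by rw [hε₁]; exact min_le_right _ _
  -- the boxes
  have hbox : ∀ s' : ℕ, ∃ K : ℕ, 1 ≤ s' → ∀ q : ℕ, 1 ≤ q →
    (∀ p : ℕ, p.Prime → p ≤ 4 * s' * K → p ∣ q) → ∀ η : ℝ, 0 < η → ∀ᶠ X : ℕ in atTop,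
    ∀ ν < q, ∀ f : Fin (4 * s') → Fin K → ℕ, Function.Injective (fun z : Fin (4 * s') × Fin K => f z.1 z.2) →
      (∀ i a, f i a ^ 2 ≤ X) → (∀ i a, Nat.Coprime q (ν + f i a)) →
      ∃ τ : Fin (4 * s') → Fin K, ∃ e : Finset ℕ, e.card = s' + 1 ∧ e ⊆ univ.image (fun i => f i (τ i)) ∧
        (X : ℝ) ^ (1 - η) ≤ (cnt e X : ℝ) := by
    intro s'
    by_cases hs' : 1 ≤ s'
    · obtain ⟨K, -, h⟩ := boxgood s' hs'
      exact ⟨K, fun _ => h⟩
    · exact ⟨0, fun h => absurd h hs'⟩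
  choose Kf hKf using hbox
  obtain ⟨S₀, hT⟩ := dens4 s ε₁ hε₁0
  obtain ⟨N₀, hT⟩ := hT Kf
  -- the modulus
  obtain ⟨y₁, hy₁⟩ := exists_nat_ge (((s + 1 : ℕ) : ℝ) ^ 2 / ε₁)
  obtain ⟨y₂, hy₂⟩ : ∃ y₂ : ℕ, y₂ = (range (S₀ + 1)).sup (fun s' => 4 * s' * Kf s') := ⟨_, rfl⟩
  have hy₂' : ∀ s' ≤ S₀, 4 * s' * Kf s' ≤ y₂ := by
    intro s' hs'
    rw [hy₂]
    exact le_sup (f := fun s' => 4 * s' * Kf s') (mem_range.2 (by omega))
  obtain ⟨y, hy⟩ : ∃ y, y = max (max y₁ y₂) (s + 1) := ⟨_, rfl⟩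
  have hyy₁ : y₁ ≤ y := by rw [hy]; exact (le_max_left _ _).trans (le_max_left _ _)
  have hyK : y₂ ≤ y := by rw [hy]; exact (le_max_right _ _).trans (le_max_left _ _)
  have hys : s + 1 ≤ y := by rw [hy]; exact le_max_right _ _
  have hy0 : (0 : ℝ) < y := by
    have : 0 < y := by omega
    exact_mod_cast this
  have hyε : ((s + 1 : ℕ) : ℝ) ^ 2 / y ≤ ε₁ := by
    rw [div_le_iff₀ hy0]
    rw [div_le_iff₀ hε₁0] at hy₁
    have : (y₁ : ℝ) ≤ y := by exact_mod_cast hyy₁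
    nlinarith
  obtain ⟨W, hW⟩ : ∃ W, W = Uni.WW y := ⟨_, rfl⟩
  have hWpos : 0 < W := by rw [hW]; exact Uni.WW_pos y
  have hW0 : (0 : ℝ) < W := by exact_mod_cast hWpos
  have hφpos : 0 < Nat.totient W := Nat.totient_pos.2 hWpos
  have hφ0 : (0 : ℝ) < Nat.totient W := by exact_mod_cast hφpos
  have hWp : ∀ s' ≤ S₀, ∀ p : ℕ, p.Prime → p ≤ 4 * s' * Kf s' → p ∣ W := by
    intro s' hs' p hp hpK
    rw [hW]
    unfold Uni.WW
    exact dvd_prod_of_mem _ (Nat.mem_primesBelow.2 ⟨by have := hy₂' s' hs'; omega, hp⟩)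
  obtain ⟨R, hR⟩ : ∃ R : ℝ, R = (W : ℝ) / Nat.totient W := ⟨_, rfl⟩
  have hR0 : 0 < R := by rw [hR]; positivity
  obtain ⟨A₁, hA₁⟩ := exists_nat_ge (R ^ (s + 1) * (N₀ : ℝ) ^ (s + 1) / ε₁)
  refine ⟨max A₁ 1, fun η hη => ?_⟩
  have hcore : ∀ᶠ X : ℕ in atTop, ∀ s' ∈ range (S₀ + 1), 1 ≤ s' →
      ∀ ν < W, ∀ f : Fin (4 * s') → Fin (Kf s') → ℕ,
      Function.Injective (fun z : Fin (4 * s') × Fin (Kf s') => f z.1 z.2) →
      (∀ i a, f i a ^ 2 ≤ X) → (∀ i a, Nat.Coprime W (ν + f i a)) →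
      ∃ τ : Fin (4 * s') → Fin (Kf s'), ∃ e : Finset ℕ, e.card = s' + 1 ∧ e ⊆ univ.image (fun i => f i (τ i)) ∧
        (X : ℝ) ^ (1 - η) ≤ (cnt e X : ℝ) := by
    rw [Filter.eventually_all_finset]
    intro s' hs'
    have hs'' : s' ≤ S₀ := by rw [mem_range] at hs'; omega
    by_cases h1 : 1 ≤ s'
    · filter_upwards [hKf s' h1 W hWpos (hWp s' hs'') η hη] with X hX _
      exact hX
    · exact Eventually.of_forall fun X h => absurd h h1
  filter_upwards [hcore] with X hX A hA hAX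
  have hA1 : (1 : ℝ) ≤ A.card := by
    have : 1 ≤ A.card := (le_max_right _ _).trans hA
    exact_mod_cast this
  have hA2 : R ^ (s + 1) * (N₀ : ℝ) ^ (s + 1) ≤ ε₁ * (A.card : ℝ) ^ (s + 1) := by
    rw [div_le_iff₀ hε₁0] at hA₁
    have h1 : (A₁ : ℝ) ≤ A.card := by exact_mod_cast (le_max_left _ _).trans hA
    have h2 : (A.card : ℝ) ≤ (A.card : ℝ) ^ (s + 1) := le_self_pow₀ hA1 (by omega)
    nlinarith
  -- the sets
  obtain ⟨E, hE⟩ : ∃ E, E = gd s η X A := ⟨_, rfl⟩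
  rw [← hE]
  obtain ⟨B, hB⟩ : ∃ B : ℕ → Finset ℕ, B = fun ν => A.filter (fun a => Nat.Coprime W (ν + a)) := ⟨_, rfl⟩
  obtain ⟨F, hF⟩ : ∃ F : ℕ → Finset (Finset ℕ), F = fun ν => E.filter (fun T => ∀ t ∈ T, Nat.Coprime W (ν + t)) :=
    ⟨_, rfl⟩
  have hEcard : ∀ T ∈ E, T.card = s + 1 := by
    intro T hT
    rw [hE] at hT
    unfold gd at hT
    exact (mem_powersetCard.1 (mem_filter.1 hT).1).2
  -- one residue class
  have h1 : ∀ ν ∈ range W, (c - ε₁) * ((B ν).card : ℝ) ^ (s + 1) ≤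
      ((F ν).card : ℝ) * (s + 1).factorial + (N₀ : ℝ) ^ (s + 1) := by
    intro ν hν
    rw [mem_range] at hν
    rcases lt_or_ge (B ν).card N₀ with h | h
    · have h2 : ((B ν).card : ℝ) ^ (s + 1) ≤ (N₀ : ℝ) ^ (s + 1) :=
        pow_le_pow_left₀ (by positivity) (by exact_mod_cast h.le) _
      have h3 : (c - ε₁) * ((B ν).card : ℝ) ^ (s + 1) ≤ 1 * ((B ν).card : ℝ) ^ (s + 1) :=
        mul_le_mul_of_nonneg_right (by linarith) (by positivity)
      have h4 : 0 ≤ ((F ν).card : ℝ) * (s + 1).factorial := by positivity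
      linarith
    · have h2 := hT (B ν) h (fun e => (X : ℝ) ^ (1 - η) ≤ (cnt e X : ℝ)) (by
        intro e e' hee h3
        exact h3.trans (by exact_mod_cast cnt_mono hee X)) (by
        intro s' hs' hs'S f hfB hinj
        have hfA : ∀ i a, f i a ∈ A ∧ Nat.Coprime W (ν + f i a) := by
          intro i a
          have := hfB i a
          rw [hB, mem_filter] at this
          exact this
        exact hX s' (mem_range.2 (by omega)) hs' ν hν f hinj (fun i a => hAX _ (hfA i a).1)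
          (fun i a => (hfA i a).2)) (F ν) (by
        intro e heB hec hGe
        rw [hF, mem_filter]
        have heA : ∀ t ∈ e, t ∈ A ∧ Nat.Coprime W (ν + t) := by
          intro t ht
          have := heB ht
          rw [hB, mem_filter] at this
          exact this
        refine ⟨?_, fun t ht => (heA t ht).2⟩
        rw [hE]
        unfold gd
        rw [mem_filter, mem_powersetCard]
        exact ⟨⟨fun t ht => (heA t ht).1, hec⟩, hGe⟩)
      rw [← hc] at h2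
      have h3 : (0 : ℝ) ≤ (N₀ : ℝ) ^ (s + 1) := by positivity
      linarith
  -- sum over the residue classes
  have hsumB : ∑ ν ∈ range W, ((B ν).card : ℝ) = A.card * Nat.totient W := by
    have h2 : ∑ ν ∈ range W, (B ν).card = A.card * Nat.totient W := by
      rw [hB]
      simp only [card_filter]
      rw [sum_comm]
      have h3 : ∀ a ∈ A, ∑ ν ∈ range W, (if Nat.Coprime W (ν + a) then 1 else 0) = Nat.totient W := by
        intro a _
        rw [← card_filter]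
        exact card_cop W a
      rw [sum_congr rfl h3, sum_const, smul_eq_mul]
    exact_mod_cast h2
  have hsumF : ∑ ν ∈ range W, ((F ν).card : ℝ) = ∑ T ∈ E, (Uni.gT W T : ℝ) := by
    have h2 : ∑ ν ∈ range W, (F ν).card = ∑ T ∈ E, Uni.gT W T := by
      rw [hF]
      unfold Uni.gT
      simp only [card_filter]
      rw [sum_comm]
    exact_mod_cast h2
  have hpow : (A.card * Nat.totient W : ℝ) ^ (s + 1) / (W : ℝ) ^ s ≤ ∑ ν ∈ range W, ((B ν).card : ℝ) ^ (s + 1) := by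
    have h2 := pow_sum_div_card_le_sum_pow (s := range W) (f := fun ν => ((B ν).card : ℝ))
      (fun _ _ => Nat.cast_nonneg _) s
    rw [hsumB, card_range] at h2
    exact h2
  have h2 : (c - ε₁) * ((A.card * Nat.totient W : ℝ) ^ (s + 1) / (W : ℝ) ^ s) ≤
      (∑ T ∈ E, (Uni.gT W T : ℝ)) * (s + 1).factorial + W * (N₀ : ℝ) ^ (s + 1) := by
    calc _ ≤ (c - ε₁) * ∑ ν ∈ range W, ((B ν).card : ℝ) ^ (s + 1) :=
          mul_le_mul_of_nonneg_left hpow (by linarith)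
      _ = ∑ ν ∈ range W, (c - ε₁) * ((B ν).card : ℝ) ^ (s + 1) := by rw [mul_sum]
      _ ≤ ∑ ν ∈ range W, (((F ν).card : ℝ) * (s + 1).factorial + (N₀ : ℝ) ^ (s + 1)) := sum_le_sum h1
      _ = _ := by
          rw [sum_add_distrib, ← sum_mul, hsumF, sum_const, card_range, nsmul_eq_mul]
  -- the singular series
  have h3 : ∀ T ∈ E, (1 - ε₁) * (R ^ (s + 1) * (Uni.gT W T / W)) ≤ Uni.CT T := by
    intro T hT
    have h4 := CT_ge' T y (by omega) (by rw [hEcard T hT]; exact hys)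
    rw [hEcard T hT, ← hW, ← hR] at h4
    refine le_trans ?_ h4
    apply mul_le_mul_of_nonneg_right _ (by positivity)
    linarith
  have h4 : (1 - ε₁) * (R ^ (s + 1) / W * ∑ T ∈ E, (Uni.gT W T : ℝ)) ≤ ∑ T ∈ E, Uni.CT T := by
    calc _ = ∑ T ∈ E, (1 - ε₁) * (R ^ (s + 1) * (Uni.gT W T / W)) := by
          rw [mul_sum, mul_sum]
          refine sum_congr rfl fun T _ => ?_
          ring
      _ ≤ _ := sum_le_sum h3
  have hfac : (0 : ℝ) < (s + 1).factorial := by exact_mod_cast Nat.factorial_pos _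
  have h5 : R ^ (s + 1) / W * ((c - ε₁) * ((A.card * Nat.totient W : ℝ) ^ (s + 1) / (W : ℝ) ^ s)) =
      (c - ε₁) * (A.card : ℝ) ^ (s + 1) := by
    rw [hR, div_pow, mul_pow]
    field_simp
    ring
  have h6 : R ^ (s + 1) / W * ((c - ε₁) * ((A.card * Nat.totient W : ℝ) ^ (s + 1) / (W : ℝ) ^ s)) ≤
      R ^ (s + 1) / W * ((∑ T ∈ E, (Uni.gT W T : ℝ)) * (s + 1).factorial + W * (N₀ : ℝ) ^ (s + 1)) :=
    mul_le_mul_of_nonneg_left h2 (by positivity)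
  rw [h5] at h6
  have h7 : R ^ (s + 1) / W * ((∑ T ∈ E, (Uni.gT W T : ℝ)) * (s + 1).factorial + W * (N₀ : ℝ) ^ (s + 1)) =
      (s + 1).factorial * (R ^ (s + 1) / W * ∑ T ∈ E, (Uni.gT W T : ℝ)) + R ^ (s + 1) * (N₀ : ℝ) ^ (s + 1) := by
    field_simp
  rw [h7] at h6
  have hA3 : (0 : ℝ) ≤ (A.card : ℝ) ^ (s + 1) := by positivity
  have h8 : (c - 2 * ε₁) * (A.card : ℝ) ^ (s + 1) ≤
      (s + 1).factorial * (R ^ (s + 1) / W * ∑ T ∈ E, (Uni.gT W T : ℝ)) := by linarith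
  calc (c - ε) * (A.card : ℝ) ^ (s + 1) ≤ (1 - ε₁) * ((c - 2 * ε₁) * (A.card : ℝ) ^ (s + 1)) := by
        have h9 : c - ε ≤ (1 - ε₁) * (c - 2 * ε₁) := by nlinarith
        calc _ ≤ ((1 - ε₁) * (c - 2 * ε₁)) * (A.card : ℝ) ^ (s + 1) := mul_le_mul_of_nonneg_right h9 hA3
          _ = _ := by ring
    _ ≤ (1 - ε₁) * ((s + 1).factorial * (R ^ (s + 1) / W * ∑ T ∈ E, (Uni.gT W T : ℝ))) :=
        mul_le_mul_of_nonneg_left h8 (by linarith)
    _ = (s + 1).factorial * ((1 - ε₁) * (R ^ (s + 1) / W * ∑ T ∈ E, (Uni.gT W T : ℝ))) := by ring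
    _ ≤ _ := mul_le_mul_of_nonneg_left h4 hfac.le

end Pool.Agent.K9h13.FC
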