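import Mathlib
import Pool.Agent.K9h13.FC.MS
import Pool.Agent.Helper22K9.Trp.Gall

/-!
# Shapes of `k`-tuples
-/

set_option autoImplicit false

namespace Pool.Agent.K9h13.FC

open Finset Filter Topology Pool.Agent.H387R2
open Pool.Agent.Helper22K9.Trp (cnt gd gall)

/-- the shapes `{0 < a_2 < ... < a_k}` below `D` -/
def shp (k D : ℕ) : Finset (Finset ℕ) := ((range D).powersetCard k).filter (fun T => 0 ∈ T)

/-- the translate -/
def tr (T : Finset ℕ) (a : ℕ) : Finset ℕ := T.image (fun t => t + a)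

lemma card_tr (T : Finset ℕ) (a : ℕ) : (tr T a).card = T.card :=
  card_image_of_injective _ (add_left_injective a)

lemma nuT_tr (T : Finset ℕ) (a p : ℕ) (hp : 0 < p) : Uni.nuT (tr T a) p = Uni.nuT T p := by
  unfold Uni.nuT tr
  rw [image_image]
  have h1 : T.image ((fun x => x % p) ∘ fun t => t + a) = (T.image (fun x => x % p)).image (fun r => (r + a) % p) := by
    rw [image_image]
    apply image_congr
    intro t _
    show (t + a) % p = (t % p + a) % p
    rw [Nat.mod_add_mod]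
  rw [h1]
  apply card_image_of_injOn
  intro r hr s hs hrs
  rw [mem_coe, mem_image] at hr hs
  obtain ⟨t, -, rfl⟩ := hr
  obtain ⟨u, -, rfl⟩ := hs
  have h2 : t % p + a ≡ u % p + a [MOD p] := hrs
  have h3 := Nat.ModEq.add_right_cancel' a h2
  have h4 : (t % p) % p = (u % p) % p := h3
  rwa [Nat.mod_mod, Nat.mod_mod] at h4

lemma CT_tr (T : Finset ℕ) (a : ℕ) : Uni.CT (tr T a) = Uni.CT T := by
  unfold Uni.CT Uni.locT
  apply tprod_congr
  intro p
  rw [nuT_tr T a p p.2.pos, card_tr]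

lemma cnt_tr (T : Finset ℕ) (hT : T.Nonempty) (a X : ℕ) : cnt (tr T a) X ≤ cnt T X := by
  unfold cnt
  refine card_le_card_of_injOn (fun n => n + a) ?_ (fun n _ m _ h => by simpa using h)
  intro n hn
  rw [coe_filter] at hn ⊢
  have h1 := hn.2
  have hn1 := hn.1
  obtain ⟨t0, ht0⟩ := hT
  refine ⟨?_, ?_⟩
  · have h2 := (h1 (t0 + a) (mem_image_of_mem _ ht0)).2
    show n + a ∈ range (X + 1)
    rw [mem_range]
    omega
  · intro t ht
    have h2 := h1 (t + a) (mem_image_of_mem _ ht)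
    have h3 : n + a + t = n + (t + a) := by ring
    show (n + a + t).Prime ∧ n + a + t ≤ X
    rw [h3]
    exact h2

/-- the largest element -/
def mx (T : Finset ℕ) : ℕ := T.sup id

lemma le_mx {T : Finset ℕ} {t : ℕ} (ht : t ∈ T) : t ≤ mx T := le_sup (f := id) ht

/-- **Sets and their shapes.** -/
lemma sum_shp (k D : ℕ) (hk : 1 ≤ k) (F : Finset ℕ → ℝ) :
    ∑ T ∈ (Icc 1 D).powersetCard k, F T = ∑ S ∈ shp k D, ∑ a ∈ Icc 1 (D - mx S), F (tr S a) := by
  rw [sum_sigma']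
  symm
  refine sum_nbij (fun x => tr x.1 x.2) ?_ ?_ ?_ (fun _ _ => rfl)
  · rintro ⟨S, a⟩ hx
    rw [mem_sigma] at hx
    simp only at hx
    obtain ⟨hS, ha⟩ := hx
    unfold shp at hS
    rw [mem_filter, mem_powersetCard] at hS
    rw [mem_Icc] at ha
    rw [mem_powersetCard]
    refine ⟨?_, ?_⟩
    · intro y hy
      obtain ⟨t, ht, rfl⟩ := mem_image.1 hy
      have h1 : t ≤ mx S := le_mx ht
      show t + a ∈ Icc 1 D
      rw [mem_Icc]
      omega
    · rw [card_tr]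
      exact hS.1.2
  · rintro ⟨S, a⟩ hx ⟨S', a'⟩ hx' h
    rw [mem_coe, mem_sigma] at hx hx'
    simp only at hx hx' h
    have h0 := (mem_filter.1 hx.1).2
    have h0' := (mem_filter.1 hx'.1).2
    have h1 : a ∈ tr S' a' := by
      rw [← h]
      exact mem_image.2 ⟨0, h0, by simp⟩
    have h2 : a' ∈ tr S a := by
      rw [h]
      exact mem_image.2 ⟨0, h0', by simp⟩
    obtain ⟨t, -, ht⟩ := mem_image.1 h1
    obtain ⟨t', -, ht'⟩ := mem_image.1 h2
    have haa : a = a' := by omega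
    subst haa
    have hS : S = S' := image_injective (add_left_injective a) h
    subst hS
    rfl
  · intro T hT
    rw [mem_coe, mem_powersetCard] at hT
    obtain ⟨hT1, hT2⟩ := hT
    have hne : T.Nonempty := by
      rw [← card_pos]
      omega
    obtain ⟨a, ha⟩ : ∃ a, a = T.min' hne := ⟨_, rfl⟩
    have haT : a ∈ T := by rw [ha]; exact min'_mem _ _
    have hle : ∀ t ∈ T, a ≤ t := by
      intro t ht
      rw [ha]
      exact min'_le _ _ ht
    have htr : tr (T.image (fun t => t - a)) a = T := by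
      unfold tr
      rw [image_image]
      ext t
      rw [mem_image]
      constructor
      · rintro ⟨u, hu, rfl⟩
        have := hle u hu
        show u - a + a ∈ T
        rw [Nat.sub_add_cancel this]
        exact hu
      · intro ht
        exact ⟨t, ht, Nat.sub_add_cancel (hle t ht)⟩
    have ha1 := mem_Icc.1 (hT1 haT)
    refine ⟨⟨T.image (fun t => t - a), a⟩, ?_, htr⟩
    rw [mem_coe, mem_sigma]
    refine ⟨?_, ?_⟩
    · unfold shp
      rw [mem_filter, mem_powersetCard]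
      refine ⟨⟨?_, ?_⟩, mem_image.2 ⟨a, haT, Nat.sub_self a⟩⟩
      · intro y hy
        obtain ⟨t, ht, rfl⟩ := mem_image.1 hy
        have := mem_Icc.1 (hT1 ht)
        rw [mem_range]
        omega
      · rw [← card_tr _ a, htr]
        exact hT2
    · show a ∈ Icc 1 (D - mx (T.image (fun t => t - a)))
      have h1 : mx (T.image (fun t => t - a)) ≤ D - a := by
        unfold mx
        apply Finset.sup_le
        intro y hy
        obtain ⟨t, ht, rfl⟩ := mem_image.1 hy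
        have := mem_Icc.1 (hT1 ht)
        show t - a ≤ D - a
        omega
      rw [mem_Icc]
      omega

/-- the number of the `m ≤ x` with all `m + t` prime -/
noncomputable def pr (x : ℝ) (T : Finset ℕ) : ℕ := ((range (⌊x⌋₊ + 1)).filter (fun m => ∀ t ∈ T, (m + t).Prime)).card

lemma cnt_le_pr (T : Finset ℕ) (x : ℝ) : cnt T ⌊x⌋₊ ≤ pr x T := by
  unfold cnt pr
  apply card_le_card
  intro n hn
  rw [mem_filter] at hn ⊢
  exact ⟨hn.1, fun t ht => (hn.2 t ht).1⟩

/-- the powers of `x` and of its integral part -/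
lemma ev_floor (η : ℝ) (hη : 0 < η) : ∀ᶠ x : ℝ in atTop, x ^ (1 - η) ≤ ((⌊x⌋₊ : ℕ) : ℝ) ^ (1 - η / 2) := by
  have t1 : Tendsto (fun x : ℝ => x ^ (η / 2)) atTop atTop := tendsto_rpow_atTop (by positivity)
  rcases le_or_gt (1 - η / 2) 0 with hcase | hcase
  · filter_upwards [t1.eventually_ge_atTop 1, eventually_ge_atTop (1 : ℝ),
      tendsto_nat_floor_atTop.eventually_ge_atTop 1] with x hx hx1 hx2
    have hx0 : 0 < x := by linarith
    have hf0 : (0 : ℝ) < ((⌊x⌋₊ : ℕ) : ℝ) := by exact_mod_cast hx2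
    calc x ^ (1 - η) = x ^ (1 - η / 2) * x ^ (-(η / 2)) := by rw [← Real.rpow_add hx0]; ring_nf
      _ ≤ x ^ (1 - η / 2) * 1 := by
          apply mul_le_mul_of_nonneg_left _ (by positivity)
          exact Real.rpow_le_one_of_one_le_of_nonpos hx1 (by linarith)
      _ = x ^ (1 - η / 2) := mul_one _
      _ ≤ _ := Real.rpow_le_rpow_of_nonpos hf0 (Nat.floor_le hx0.le) hcase
  · filter_upwards [t1.eventually_ge_atTop ((2 : ℝ) ^ (1 - η / 2)), eventually_ge_atTop (2 : ℝ)] with x hx hx1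
    have hx0 : 0 < x := by linarith
    have h3 : x / 2 ≤ ((⌊x⌋₊ : ℕ) : ℝ) := by
      have := Nat.lt_floor_add_one x
      linarith
    calc x ^ (1 - η) = x ^ (1 - η / 2) / x ^ (η / 2) := by rw [← Real.rpow_sub hx0]; ring_nf
      _ ≤ x ^ (1 - η / 2) / (2 : ℝ) ^ (1 - η / 2) :=
          div_le_div_of_nonneg_left (by positivity) (by positivity) hx
      _ = (x / 2) ^ (1 - η / 2) := by rw [Real.div_rpow hx0.le (by norm_num)]
      _ ≤ _ := Real.rpow_le_rpow (by positivity) h3 hcase.le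

open Classical in
/-- **`k`-tuples of an arbitrary set and shapes.** -/
theorem ktup (s : ℕ) (ε : ℝ) (hε : 0 < ε) : ∃ N₀ : ℕ, ∀ η : ℝ, 0 < η → ∃ X : ℝ, ∀ x : ℝ, X ≤ x →
    (∀ A : Finset ℕ, N₀ ≤ A.card → (∀ a ∈ A, (a : ℝ) ^ 2 ≤ x) →
      (1 / 4 ^ s - ε) * ((A.card : ℝ) ^ (s + 1) / (s + 1).factorial) ≤
        ∑ T ∈ (A.powersetCard (s + 1)).filter (fun T => x ^ (1 - η) ≤ (pr x T : ℝ)), Uni.CT T) ∧
    (∀ D : ℕ, N₀ ≤ D → (D : ℝ) ^ 2 ≤ x →
      (1 / 4 ^ s - ε) * ∑ T ∈ shp (s + 1) D, ((D : ℝ) - mx T) * Uni.CT T ≤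
        ∑ T ∈ (shp (s + 1) D).filter (fun T => x ^ (1 - η) ≤ (pr x T : ℝ)), ((D : ℝ) - mx T) * Uni.CT T) := by
  have h4 : (1 : ℝ) ≤ 4 ^ s := one_le_pow₀ (by norm_num)
  obtain ⟨c, hc⟩ : ∃ c : ℝ, c = 1 / 4 ^ s := ⟨_, rfl⟩
  rw [← hc]
  have hc1 : c ≤ 1 := by rw [hc, div_le_one (by linarith)]; exact h4
  have hc0 : 0 < c := by rw [hc]; positivity
  obtain ⟨ε₁, hε₁⟩ : ∃ ε₁ : ℝ, ε₁ = min (ε / 3) (c / 2) := ⟨_, rfl⟩
  have hε₁0 : 0 < ε₁ := by rw [hε₁]; positivity
  have hε₁1 : ε₁ ≤ ε / 3 := by rw [hε₁]; exact min_le_left _ _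
  have hε₁2 : ε₁ ≤ c / 2 := by rw [hε₁]; exact min_le_right _ _
  have hf : (0 : ℝ) < (s + 1).factorial := by exact_mod_cast Nat.factorial_pos _
  obtain ⟨N₀, h⟩ := mass4 s ε₁ hε₁0
  rw [← hc] at h
  obtain ⟨N₁, h'⟩ := gall s ε₁ hε₁0
  refine ⟨max (max N₀ N₁) 1, fun η hη => ?_⟩
  have h1 := h (η / 2) (by positivity)
  rw [eventually_atTop] at h1
  obtain ⟨X₁, h1⟩ := h1
  have h2 := ev_floor η hη
  rw [eventually_atTop] at h2
  obtain ⟨X₂, h2⟩ := h2
  refine ⟨max (max ((X₁ : ℝ) + 1) X₂) 1, fun x hx => ?_⟩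
  have hx1 : (X₁ : ℝ) + 1 ≤ x := ((le_max_left _ _).trans (le_max_left _ _)).trans hx
  have hx2 : X₂ ≤ x := ((le_max_right _ _).trans (le_max_left _ _)).trans hx
  have hx3 : 1 ≤ x := (le_max_right _ _).trans hx
  have hX : X₁ ≤ ⌊x⌋₊ := by
    refine Nat.le_floor ?_
    linarith
  -- the sets
  have keyA : ∀ A : Finset ℕ, max (max N₀ N₁) 1 ≤ A.card → (∀ a ∈ A, (a : ℝ) ^ 2 ≤ x) →
      (c - ε₁) * ((A.card : ℝ) ^ (s + 1) / (s + 1).factorial) ≤ ∑ T ∈ gd s (η / 2) ⌊x⌋₊ A, Uni.CT T := by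
    intro A hA hAx
    have key := h1 ⌊x⌋₊ hX A (((le_max_left _ _).trans (le_max_left _ _)).trans hA) (fun a ha => by
      refine Nat.le_floor ?_
      push_cast
      exact hAx a ha)
    rw [← mul_div_assoc, div_le_iff₀ hf]
    linarith
  refine ⟨fun A hA hAx => ?_, fun D hD hDx => ?_⟩
  · have k1 := keyA A hA hAx
    have k2 : ∑ T ∈ gd s (η / 2) ⌊x⌋₊ A, Uni.CT T ≤
        ∑ T ∈ (A.powersetCard (s + 1)).filter (fun T => x ^ (1 - η) ≤ (pr x T : ℝ)), Uni.CT T := by
      apply sum_le_sum_of_subset_of_nonneg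
      · intro T hT
        unfold gd at hT
        rw [mem_filter] at hT ⊢
        refine ⟨hT.1, (h2 x hx2).trans (hT.2.trans ?_)⟩
        exact_mod_cast cnt_le_pr T x
      · intro T _ _
        exact Uni.CT_nonneg T
    have k3 : 0 ≤ (A.card : ℝ) ^ (s + 1) / (s + 1).factorial := by positivity
    have k4 : (c - ε) * ((A.card : ℝ) ^ (s + 1) / (s + 1).factorial) ≤
        (c - ε₁) * ((A.card : ℝ) ^ (s + 1) / (s + 1).factorial) :=
      mul_le_mul_of_nonneg_right (by linarith) k3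
    linarith
  · have hD1 : N₁ ≤ D := ((le_max_right _ _).trans (le_max_left _ _)).trans hD
    have k1 := keyA (Icc 1 D) (by simpa using hD) (fun a ha => by
      rw [mem_Icc] at ha
      have : (a : ℝ) ≤ D := by exact_mod_cast ha.2
      have h0 : (0 : ℝ) ≤ a := Nat.cast_nonneg a
      nlinarith)
    have hcard : (Icc 1 D).card = D := by simp
    rw [hcard] at k1
    have hmx : ∀ S ∈ shp (s + 1) D, ((Icc 1 (D - mx S)).card : ℝ) = (D : ℝ) - mx S := by
      intro S hS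
      unfold shp at hS
      rw [mem_filter, mem_powersetCard] at hS
      have h3 : mx S ≤ D := by
        unfold mx
        apply Finset.sup_le
        intro t ht
        exact (mem_range.1 (hS.1.1 ht)).le
      rw [Nat.card_Icc, Nat.add_sub_cancel, Nat.cast_sub h3]
    have k2 : ∑ T ∈ (Icc 1 D).powersetCard (s + 1), Uni.CT T = ∑ S ∈ shp (s + 1) D, ((D : ℝ) - mx S) * Uni.CT S := by
      rw [sum_shp (s + 1) D (by omega)]
      apply sum_congr rfl
      intro S hS
      simp only [CT_tr]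
      rw [sum_const, nsmul_eq_mul, hmx S hS]
    have k3 : ∑ T ∈ gd s (η / 2) ⌊x⌋₊ (Icc 1 D), Uni.CT T ≤
        ∑ T ∈ (shp (s + 1) D).filter (fun T => x ^ (1 - η) ≤ (pr x T : ℝ)), ((D : ℝ) - mx T) * Uni.CT T := by
      unfold gd
      rw [sum_filter, sum_shp (s + 1) D (by omega), sum_filter]
      apply sum_le_sum
      intro S hS
      have hSne : S.Nonempty := ⟨0, (mem_filter.1 hS).2⟩
      split_ifs with hg
      · rw [← hmx S hS, ← nsmul_eq_mul, ← sum_const]
        apply sum_le_sum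
        intro a _
        split_ifs
        · rw [CT_tr]
        · exact Uni.CT_nonneg S
      · apply le_of_eq
        apply sum_eq_zero
        intro a _
        rw [if_neg]
        intro h3
        apply hg
        refine (h2 x hx2).trans (h3.trans ?_)
        exact_mod_cast (cnt_tr S hSne a _).trans (cnt_le_pr S x)
    have k4 := h' D hD1
    rw [k2] at k4
    obtain ⟨Q, hQ⟩ : ∃ Q : ℝ, Q = ∑ S ∈ shp (s + 1) D, ((D : ℝ) - mx S) * Uni.CT S := ⟨_, rfl⟩
    rw [← hQ] at k4 ⊢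
    have hQ0 : 0 ≤ Q := by
      rw [hQ, ← k2]
      exact sum_nonneg fun T _ => Uni.CT_nonneg T
    refine le_trans ?_ (k1.trans k3)
    have k5 : Q ≤ (1 + ε₁) * ((D : ℝ) ^ (s + 1) / (s + 1).factorial) := by
      rw [← mul_div_assoc, le_div_iff₀ hf]
      linarith
    have hDp : 0 ≤ (D : ℝ) ^ (s + 1) / (s + 1).factorial := by positivity
    rcases le_or_gt (c - ε) 0 with hcc | hcc
    · have h1 : (c - ε) * Q ≤ 0 := mul_nonpos_of_nonpos_of_nonneg hcc hQ0
      have h2 : 0 ≤ (c - ε₁) * ((D : ℝ) ^ (s + 1) / (s + 1).factorial) := mul_nonneg (by linarith) hDp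
      linarith
    · calc (c - ε) * Q ≤ (c - ε) * ((1 + ε₁) * ((D : ℝ) ^ (s + 1) / (s + 1).factorial)) :=
            mul_le_mul_of_nonneg_left k5 hcc.le
        _ = ((c - ε) * (1 + ε₁)) * ((D : ℝ) ^ (s + 1) / (s + 1).factorial) := by ring
        _ ≤ _ := by
            apply mul_le_mul_of_nonneg_right _ hDp
            nlinarith

end Pool.Agent.K9h13.FC
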