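import Mathlib
import Pool.Agent.K9h13.FC.MS
import Pool.Agent.Helper22K9.Trp.Pair

/-!
# Triples: the proportion `1 / 16`

The reduction from sets to pairs of differences is the one of the starting files `Helper22K9/Trp/Tri`, `Pair`.
-/

set_option autoImplicit false

namespace Pool.Agent.K9h13.FC

open Finset Filter Topology Pool.Agent.H387R2
open Pool.Agent.Helper22K9.Trp (cnt gd pi3 S3 gtri tri st sum_three S3_eq cnt_le S3_nonneg prs df sum_fib S3_even gprs gall)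

open Classical in
/-- **Triples of an arbitrary set.** -/
theorem trip16 (ε : ℝ) (hε : 0 < ε) : ∃ N₀ : ℕ, ∀ η : ℝ, 0 < η → ∃ X : ℝ, ∀ x : ℝ, X ≤ x →
    ∀ A : Finset ℕ, N₀ ≤ A.card → (∀ a ∈ A, (a : ℝ) ^ 2 ≤ x) →
    (1 / 16 - ε) * ((A.card : ℝ) ^ 3 / 6) ≤
      ∑ u ∈ gtri x η A, S3 (u.2.2 - u.2.1) (u.2.2 - u.1) := by
  obtain ⟨N₀, h⟩ := mass4 2 ε hε
  refine ⟨N₀, fun η hη => ?_⟩
  have h1 := h (η / 2) (by positivity)
  rw [eventually_atTop] at h1
  obtain ⟨X₁, h1⟩ := h1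
  -- the powers of `x` and of its integral part
  have h2 : ∀ᶠ x : ℝ in atTop, x ^ (1 - η) ≤ ((⌊x⌋₊ : ℕ) : ℝ) ^ (1 - η / 2) := by
    have t1 : Tendsto (fun x : ℝ => x ^ (η / 2)) atTop atTop := tendsto_rpow_atTop (by positivity)
    have t2 : Tendsto (fun x : ℝ => ((⌊x⌋₊ : ℕ) : ℝ)) atTop atTop :=
      tendsto_natCast_atTop_atTop.comp tendsto_nat_floor_atTop
    rcases le_or_gt (1 - η / 2) 0 with hcase | hcase
    · filter_upwards [t1.eventually_ge_atTop 1, eventually_ge_atTop (1 : ℝ),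
        tendsto_nat_floor_atTop.eventually_ge_atTop 1] with x hx hx1 hx2
      have hx0 : 0 < x := by linarith
      have hf0 : (0 : ℝ) < ((⌊x⌋₊ : ℕ) : ℝ) := by exact_mod_cast hx2
      calc x ^ (1 - η) = x ^ (1 - η / 2) * x ^ (-(η / 2)) := by rw [← Real.rpow_add hx0]; ring_nf
        _ ≤ x ^ (1 - η / 2) * 1 := by
            apply mul_le_mul_of_nonneg_left _ (by positivity)
            exact Real.rpow_le_one_of_one_le_of_nonpos hx1 (by linarith)
        _ = x ^ (1 - η / 2) := mul_one _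
        _ ≤ _ := Real.rpow_le_rpow_of_nonpos hf0 (Nat.floor_le hx0.le) hcase
    · filter_upwards [t1.eventually_ge_atTop ((2 : ℝ) ^ (1 - η / 2)), eventually_ge_atTop (2 : ℝ)] with x hx hx1
      have hx0 : 0 < x := by linarith
      have h3 : x / 2 ≤ ((⌊x⌋₊ : ℕ) : ℝ) := by
        have := Nat.lt_floor_add_one x
        linarith
      calc x ^ (1 - η) = x ^ (1 - η / 2) / x ^ (η / 2) := by rw [← Real.rpow_sub hx0]; ring_nf
        _ ≤ x ^ (1 - η / 2) / (2 : ℝ) ^ (1 - η / 2) :=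
            div_le_div_of_nonneg_left (by positivity) (by positivity) hx
        _ = (x / 2) ^ (1 - η / 2) := by rw [Real.div_rpow hx0.le (by norm_num)]
        _ ≤ _ := Real.rpow_le_rpow (by positivity) h3 hcase.le
  rw [eventually_atTop] at h2
  obtain ⟨X₂, h2⟩ := h2
  refine ⟨max (max ((X₁ : ℝ) + 1) X₂) 1, fun x hx A hA hAx => ?_⟩
  have hx1 : (X₁ : ℝ) + 1 ≤ x := ((le_max_left _ _).trans (le_max_left _ _)).trans hx
  have hx2 : X₂ ≤ x := ((le_max_right _ _).trans (le_max_left _ _)).trans hx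
  have hx3 : 1 ≤ x := (le_max_right _ _).trans hx
  have hX : X₁ ≤ ⌊x⌋₊ := by
    refine Nat.le_floor ?_
    linarith
  have key := h1 ⌊x⌋₊ hX A hA (fun a ha => by
    refine Nat.le_floor ?_
    push_cast
    exact hAx a ha)
  have e1 : ((4 : ℝ) ^ 2) = 16 := by norm_num
  rw [e1] at key
  have e2 : ((2 + 1).factorial : ℝ) = 6 := by norm_num [Nat.factorial]
  rw [e2] at key
  have h3 : ∑ T ∈ gd 2 (η / 2) ⌊x⌋₊ A, Uni.CT T ≤ ∑ u ∈ gtri x η A, S3 (u.2.2 - u.2.1) (u.2.2 - u.1) := by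
    unfold gd
    rw [sum_filter, sum_three A (fun T => if ((⌊x⌋₊ : ℕ) : ℝ) ^ (1 - η / 2) ≤ (cnt T ⌊x⌋₊ : ℝ) then Uni.CT T else 0)]
    have e3 : gtri x η A = (tri A).filter (fun u => x ^ (1 - η) ≤ (pi3 x (u.2.2 - u.2.1) (u.2.2 - u.1) : ℝ)) := by
      unfold gtri tri
      rw [filter_filter]
      refine filter_congr fun u _ => ?_
      tauto
    rw [e3, sum_filter]
    apply sum_le_sum
    intro u hu
    unfold tri at hu
    rw [mem_filter] at hu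
    obtain ⟨-, hab, hbc⟩ := hu
    have hst : st u = {u.1, u.2.1, u.2.2} := rfl
    split_ifs with g1 g2
    · rw [hst, ← S3_eq hab hbc]
    · exfalso
      apply g2
      refine (h2 x hx2).trans (g1.trans ?_)
      rw [hst]
      exact_mod_cast cnt_le hab hbc x
    · exact S3_nonneg hab hbc
    · exact le_rfl
  push_cast at key
  linarith


open Classical in
/-- **The proportion of the good pairs.** -/
theorem prop16 (ε : ℝ) (hε : 0 < ε) : ∃ N₀ : ℕ, ∀ η : ℝ, 0 < η → ∃ X : ℝ, ∀ x : ℝ, X ≤ x →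
    ∀ D : ℕ, N₀ ≤ D → (D : ℝ) ^ 2 ≤ x →
    (1 / 16 - ε) * ∑ v ∈ prs D, ((D : ℝ) - v.2) * S3 v.1 v.2 ≤
      ∑ v ∈ gprs x η D, ((D : ℝ) - v.2) * S3 v.1 v.2 := by
  obtain ⟨ε₁, hε₁⟩ : ∃ ε₁ : ℝ, ε₁ = min (ε / 3) (1 / 32) := ⟨_, rfl⟩
  have hε₁0 : 0 < ε₁ := by rw [hε₁]; positivity
  have hε₁1 : ε₁ ≤ ε / 3 := by rw [hε₁]; exact min_le_left _ _
  have hε₁2 : ε₁ ≤ 1 / 32 := by rw [hε₁]; exact min_le_right _ _
  obtain ⟨N₀, h⟩ := trip16 ε₁ hε₁0
  obtain ⟨N₁, h'⟩ := gall 2 ε₁ hε₁0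
  refine ⟨max (max N₀ N₁) 1, fun η hη => ?_⟩
  obtain ⟨X, h⟩ := h η hη
  refine ⟨X, fun x hx D hD hDx => ?_⟩
  have hD0 : N₀ ≤ D := ((le_max_left _ _).trans (le_max_left _ _)).trans hD
  have hD1 : N₁ ≤ D := ((le_max_right _ _).trans (le_max_left _ _)).trans hD
  have k1 := h x hx (Icc 1 D) (by simpa using hD0) (fun a ha => by
    rw [mem_Icc] at ha
    have : (a : ℝ) ≤ D := by exact_mod_cast ha.2
    have h0 : (0 : ℝ) ≤ a := Nat.cast_nonneg a
    nlinarith)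
  have hcard : (Icc 1 D).card = D := by simp
  rw [hcard] at k1
  -- the good triples
  have k2 : ∑ u ∈ gtri x η (Icc 1 D), S3 (u.2.2 - u.2.1) (u.2.2 - u.1) =
      ∑ v ∈ gprs x η D, ((D : ℝ) - v.2) * S3 v.1 v.2 := by
    have e1 : gtri x η (Icc 1 D) = (tri (Icc 1 D)).filter
        (fun u => x ^ (1 - η) ≤ (pi3 x (u.2.2 - u.2.1) (u.2.2 - u.1) : ℝ)) := by
      unfold gtri tri
      rw [filter_filter]
      refine filter_congr fun u _ => ?_
      tauto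
    rw [e1, sum_filter]
    have e2 := sum_fib D (fun v => if x ^ (1 - η) ≤ (pi3 x v.1 v.2 : ℝ) then S3 v.1 v.2 else 0) (by
      intro u hu hne
      unfold tri at hu
      rw [mem_filter] at hu
      obtain ⟨-, hab, hbc⟩ := hu
      have hne2 : S3 (df u).1 (df u).2 ≠ 0 := by
        intro h0
        apply hne
        simp only [h0, ite_self]
      exact S3_even hab hbc hne2)
    unfold gprs
    rw [sum_filter]
    refine e2.trans (sum_congr rfl fun v _ => ?_)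
    split_ifs
    · rfl
    · rw [mul_zero]
  have k3 : ∑ T ∈ (Icc 1 D).powersetCard 3, Uni.CT T = ∑ v ∈ prs D, ((D : ℝ) - v.2) * S3 v.1 v.2 := by
    rw [sum_three (Icc 1 D) (fun T => Uni.CT T)]
    rw [← sum_fib D (fun v => S3 v.1 v.2) (by
      intro u hu hne
      unfold tri at hu
      rw [mem_filter] at hu
      obtain ⟨-, hab, hbc⟩ := hu
      exact S3_even hab hbc hne)]
    refine sum_congr rfl fun u hu => ?_
    unfold tri at hu
    rw [mem_filter] at hu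
    obtain ⟨-, hab, hbc⟩ := hu
    exact (S3_eq hab hbc).symm
  have k4 := h' D hD1
  have e2 : ((2 + 1).factorial : ℝ) = 6 := by norm_num [Nat.factorial]
  have e3 : (2 + 1 : ℕ) = 3 := rfl
  rw [e2, e3, k3] at k4
  rw [k2] at k1
  obtain ⟨Q, hQ⟩ : ∃ Q : ℝ, Q = ∑ v ∈ prs D, ((D : ℝ) - v.2) * S3 v.1 v.2 := ⟨_, rfl⟩
  rw [← hQ] at k4 ⊢
  have hQ0 : 0 ≤ Q := by
    rw [hQ, ← k3]
    exact sum_nonneg fun T _ => Uni.CT_nonneg T
  have hD3 : (0 : ℝ) ≤ (D : ℝ) ^ 3 := by positivity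
  refine le_trans ?_ k1
  -- `Q ≤ (1 + ε₁) D ^ 3 / 6`
  have k5 : Q ≤ (1 + ε₁) * ((D : ℝ) ^ 3 / 6) := by linarith
  rcases le_or_gt (1 / 16 - ε) 0 with hc | hc
  · have h1 : (1 / 16 - ε) * Q ≤ 0 := mul_nonpos_of_nonpos_of_nonneg hc hQ0
    have h2 : 0 ≤ (1 / 16 - ε₁) * ((D : ℝ) ^ 3 / 6) := mul_nonneg (by linarith) (by positivity)
    linarith
  · calc (1 / 16 - ε) * Q ≤ (1 / 16 - ε) * ((1 + ε₁) * ((D : ℝ) ^ 3 / 6)) := mul_le_mul_of_nonneg_left k5 hc.le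
      _ = ((1 / 16 - ε) * (1 + ε₁)) * ((D : ℝ) ^ 3 / 6) := by ring
      _ ≤ _ := by
          apply mul_le_mul_of_nonneg_right _ (by positivity)
          nlinarith


end Pool.Agent.K9h13.FC
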